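import Pool.Agent.Run7.h57.TR.Outs

/-!
# Computability of the level-`m` requirements
-/

set_option autoImplicit false

namespace Pool.Agent.Run7.h57.TR

section comb

variable {α : Type*} [Primcodable α]

theorem pp_all {f : α → ℕ} {P : α → ℕ → Prop} (hf : Primrec f)
    (hP : PrimrecPred (fun p : α × ℕ => P p.1 p.2)) : PrimrecPred (fun a => ∀ x < f a, P a x) := by
  have hR : PrimrecRel (fun (x : ℕ) (a : α) => P a x) :=
    PrimrecPred.comp (f := fun q : ℕ × α => (q.2, q.1)) hP (Primrec.snd.pair Primrec.fst)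
  have := (PrimrecRel.forall_mem_list hR).comp (Primrec.list_range.comp hf) (Primrec.id (α := α))
  exact this.of_eq fun a => by simp

theorem pp_ex {f : α → ℕ} {P : α → ℕ → Prop} (hf : Primrec f)
    (hP : PrimrecPred (fun p : α × ℕ => P p.1 p.2)) : PrimrecPred (fun a => ∃ x < f a, P a x) := by
  have hR : PrimrecRel (fun (x : ℕ) (a : α) => P a x) :=
    PrimrecPred.comp (f := fun q : ℕ × α => (q.2, q.1)) hP (Primrec.snd.pair Primrec.fst)
  have := (PrimrecRel.exists_mem_list hR).comp (Primrec.list_range.comp hf) (Primrec.id (α := α))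
  exact this.of_eq fun a => by simp

theorem pp_imp {P Q' : α → Prop} (hP : PrimrecPred P) (hQ : PrimrecPred Q') :
    PrimrecPred (fun a => P a → Q' a) :=
  (hP.not.or hQ).of_eq fun a => by tauto

theorem pr_add {f g : α → ℕ} (hf : Primrec f) (hg : Primrec g) : Primrec (fun a => f a + g a) :=
  Primrec.nat_add.comp hf hg

theorem pr_sub {f g : α → ℕ} (hf : Primrec f) (hg : Primrec g) : Primrec (fun a => f a - g a) :=
  Primrec.nat_sub.comp hf hg

theorem pr_mul {f g : α → ℕ} (hf : Primrec f) (hg : Primrec g) : Primrec (fun a => f a * g a) :=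
  Primrec.nat_mul.comp hf hg

theorem pr_div {f g : α → ℕ} (hf : Primrec f) (hg : Primrec g) : Primrec (fun a => f a / g a) :=
  Primrec.nat_div.comp hf hg

theorem pr_pow {f : α → ℕ} (hf : Primrec f) : Primrec (fun a => 2 ^ f a) :=
  (Primrec₂.unpaired'.1 Nat.Primrec.pow).comp (Primrec.const 2) hf

theorem pr_succ {f : α → ℕ} (hf : Primrec f) : Primrec (fun a => f a + 1) :=
  Primrec.succ.comp hf

theorem pp_le {f g : α → ℕ} (hf : Primrec f) (hg : Primrec g) :
    PrimrecPred (fun a => f a ≤ g a) := Primrec.nat_le.comp hf hg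

theorem pp_eq {f g : α → ℕ} (hf : Primrec f) (hg : Primrec g) :
    PrimrecPred (fun a => f a = g a) := Primrec.eq.comp hf hg

theorem pp_bit {c x : α → ℕ} (hc : Primrec c) (hx : Primrec x) :
    PrimrecPred (fun a => (c a).testBit (x a) = true) := by
  have h : Primrec (fun a => c a / 2 ^ x a % 2) :=
    Primrec.nat_mod.comp (pr_div hc (pr_pow hx)) (Primrec.const 2)
  refine (pp_eq h (Primrec.const 1)).of_eq fun a => ?_
  rw [Nat.testBit_eq_decide_div_mod_eq]; simp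

theorem pr_sum {f : α → ℕ} {g : α → ℕ → ℕ} (hf : Primrec f)
    (hg : Primrec (fun p : α × ℕ => g p.1 p.2)) :
    Primrec (fun a => ∑ s ∈ Finset.range (f a), g a s) := by
  have h1 : Primrec (fun z : α × (ℕ × ℕ) => (z.1, z.2.1)) :=
    Primrec.fst.pair (Primrec.fst.comp Primrec.snd)
  have h2 : Primrec (fun z : α × (ℕ × ℕ) => g z.1 z.2.1) := hg.comp h1
  have h3 : Primrec (fun z : α × (ℕ × ℕ) => z.2.2 + g z.1 z.2.1) :=
    pr_add (Primrec.snd.comp Primrec.snd) h2
  have hh : Primrec₂ (fun (a : α) (q : ℕ × ℕ) => q.2 + g a q.1) := h3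
  have h := Primrec.nat_rec' (f := f) (g := fun _ : α => 0)
    (h := fun (a : α) (q : ℕ × ℕ) => q.2 + g a q.1) hf (Primrec.const 0) hh
  refine h.of_eq fun a => ?_
  induction f a with
  | zero => simp
  | succ n ih => 
    rw [Finset.sum_range_succ, ← ih]

theorem pr_cnt {c n : α → ℕ} (hc : Primrec c) (hn : Primrec n) :
    Primrec (fun a => cnt (c a).testBit (n a)) := by
  have h : Primrec (fun a => ∑ s ∈ Finset.range (2 ^ n a), c a / 2 ^ (2 ^ n a + s) % 2) := by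
    refine pr_sum (g := fun a s => c a / 2 ^ (2 ^ n a + s) % 2) (pr_pow hn) ?_
    exact Primrec.nat_mod.comp (pr_div (hc.comp Primrec.fst) (pr_pow
      (pr_add (pr_pow (hn.comp Primrec.fst)) Primrec.snd))) (Primrec.const 2)
  refine h.of_eq fun a => ?_
  unfold cnt
  refine Finset.sum_congr rfl fun s _ => ?_
  rw [Nat.toNat_testBit]

theorem pr_tM {t : α → ℕ} (ht : Primrec t) : Primrec (fun a => tM (t a)) :=
  Primrec.fst.comp (Primrec.unpair.comp ht)

theorem pr_tu {t : α → ℕ} (ht : Primrec t) : Primrec (fun a => tu (t a)) :=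
  Primrec.fst.comp (Primrec.unpair.comp (Primrec.snd.comp (Primrec.unpair.comp ht)))

theorem pr_tv {t : α → ℕ} (ht : Primrec t) : Primrec (fun a => tv (t a)) :=
  Primrec.snd.comp (Primrec.unpair.comp (Primrec.snd.comp (Primrec.unpair.comp ht)))

theorem pr_tc {t : α → ℕ} (ht : Primrec t) : Primrec (fun a => tc (t a)) :=
  pr_add (pr_cnt (pr_tu ht) (pr_tM ht)) (pr_cnt (pr_tv ht) (pr_tM ht))

theorem pp_alive {i m c x y : α → ℕ} (hi : Primrec i) (hm : Primrec m) (hc : Primrec c)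
    (hx : Primrec x) (hy : Primrec y) :
    PrimrecPred (fun a => Alive (i a) (m a) (c a).testBit (x a) (y a)) := by
  unfold Alive
  refine pp_all (P := fun a j => (c a).testBit (x a / 2 ^ j) = true ∨
    (c a).testBit (y a / 2 ^ j) = true) (pr_sub (pr_succ hm) hi) ?_
  exact (pp_bit (hc.comp Primrec.fst) (pr_div (hx.comp Primrec.fst) (pr_pow Primrec.snd))).or
    (pp_bit (hc.comp Primrec.fst) (pr_div (hy.comp Primrec.fst) (pr_pow Primrec.snd)))

theorem pp_cov {i m c u v : α → ℕ} (hi : Primrec i) (hm : Primrec m) (hc : Primrec c)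
    (hu : Primrec u) (hv : Primrec v) :
    PrimrecPred (fun a => Cov (i a) (m a) (c a).testBit (u a).testBit (v a).testBit) := by
  unfold Cov
  refine pp_all (P := fun a s => ∀ t < 2 ^ m a, Alive (i a) (m a) (c a).testBit (2 ^ m a + s)
    (2 ^ m a + t) → (u a).testBit (2 ^ m a + s) = true ∨ (v a).testBit (2 ^ m a + t) = true)
    (pr_pow hm) ?_
  refine pp_all (P := fun (p : α × ℕ) t => Alive (i p.1) (m p.1) (c p.1).testBit (2 ^ m p.1 + p.2)
    (2 ^ m p.1 + t) → (u p.1).testBit (2 ^ m p.1 + p.2) = true ∨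
      (v p.1).testBit (2 ^ m p.1 + t) = true) (pr_pow (hm.comp Primrec.fst)) ?_
  have f1 : Primrec (fun q : (α × ℕ) × ℕ => q.1.1) := Primrec.fst.comp Primrec.fst
  have hx : Primrec (fun q : (α × ℕ) × ℕ => 2 ^ m q.1.1 + q.1.2) :=
    pr_add (pr_pow (hm.comp f1)) (Primrec.snd.comp Primrec.fst)
  have hy : Primrec (fun q : (α × ℕ) × ℕ => 2 ^ m q.1.1 + q.2) :=
    pr_add (pr_pow (hm.comp f1)) Primrec.snd
  exact pp_imp (pp_alive (hi.comp f1) (hm.comp f1) (hc.comp f1) hx hy)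
    ((pp_bit (hu.comp f1) hx).or (pp_bit (hv.comp f1) hy))

end comb

theorem opt_iff_code {d i M a m : ℕ} {B : ℕ → Bool} : Opt d i M a m B ↔
    ∀ cu < 2 ^ 2 ^ (m + 1), ∀ cv < 2 ^ 2 ^ (m + 1), Cov i m B cu.testBit cv.testBit →
      a * 2 ^ m * 2 ^ (d + i + 1) ≤
        (cnt cu.testBit m + cnt cv.testBit m) * 2 ^ M * 2 ^ (d + i + 1) + 2 ^ m * 2 ^ M := by
  constructor
  · intro h cu _ cv _ hc
    exact h _ _ hc
  · intro h u' v' hc
    obtain ⟨cu, hcu, hu⟩ := exists_code (2 ^ (m + 1)) u'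
    obtain ⟨cv, hcv, hv⟩ := exists_code (2 ^ (m + 1)) v'
    have := h cu hcu cv hcv (cov_congr (fun _ _ => rfl) (fun x hx => (hu x hx).symm)
      (fun x hx => (hv x hx).symm) hc)
    rwa [cnt_congr hu, cnt_congr hv] at this

section comb2

variable {α : Type*} [Primcodable α]

theorem pp_opt {d i M b m c : α → ℕ} (hd : Primrec d) (hi : Primrec i) (hM : Primrec M)
    (hb : Primrec b) (hm : Primrec m) (hc : Primrec c) :
    PrimrecPred (fun a => Opt (d a) (i a) (M a) (b a) (m a) (c a).testBit) := by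
  have key : PrimrecPred (fun a => ∀ cu < 2 ^ 2 ^ (m a + 1), ∀ cv < 2 ^ 2 ^ (m a + 1),
      Cov (i a) (m a) (c a).testBit cu.testBit cv.testBit →
      b a * 2 ^ m a * 2 ^ (d a + i a + 1) ≤
        (cnt cu.testBit (m a) + cnt cv.testBit (m a)) * 2 ^ M a * 2 ^ (d a + i a + 1)
          + 2 ^ m a * 2 ^ M a) := by
    refine pp_all (P := fun a cu => ∀ cv < 2 ^ 2 ^ (m a + 1),
      Cov (i a) (m a) (c a).testBit cu.testBit cv.testBit →
      b a * 2 ^ m a * 2 ^ (d a + i a + 1) ≤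
        (cnt cu.testBit (m a) + cnt cv.testBit (m a)) * 2 ^ M a * 2 ^ (d a + i a + 1)
          + 2 ^ m a * 2 ^ M a) (pr_pow (pr_pow (pr_succ hm))) ?_
    refine pp_all (P := fun (p : α × ℕ) cv =>
      Cov (i p.1) (m p.1) (c p.1).testBit p.2.testBit cv.testBit →
      b p.1 * 2 ^ m p.1 * 2 ^ (d p.1 + i p.1 + 1) ≤
        (cnt p.2.testBit (m p.1) + cnt cv.testBit (m p.1)) * 2 ^ M p.1 * 2 ^ (d p.1 + i p.1 + 1)
          + 2 ^ m p.1 * 2 ^ M p.1) (pr_pow (pr_pow (pr_succ (hm.comp Primrec.fst)))) ?_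
    have f1 : Primrec (fun q : (α × ℕ) × ℕ => q.1.1) := Primrec.fst.comp Primrec.fst
    have f2 : Primrec (fun q : (α × ℕ) × ℕ => q.1.2) := Primrec.snd.comp Primrec.fst
    have f3 : Primrec (fun q : (α × ℕ) × ℕ => q.2) := Primrec.snd
    have hK : Primrec (fun q : (α × ℕ) × ℕ => 2 ^ (d q.1.1 + i q.1.1 + 1)) :=
      pr_pow (pr_succ (pr_add (hd.comp f1) (hi.comp f1)))
    exact pp_imp (pp_cov (hi.comp f1) (hm.comp f1) (hc.comp f1) f2 f3)
      (pp_le (pr_mul (pr_mul (hb.comp f1) (pr_pow (hm.comp f1))) hK)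
        (pr_add (pr_mul (pr_mul (pr_add (pr_cnt f2 (hm.comp f1)) (pr_cnt f3 (hm.comp f1)))
          (pr_pow (hM.comp f1))) hK) (pr_mul (pr_pow (hm.comp f1)) (pr_pow (hM.comp f1)))))
  exact key.of_eq fun a => opt_iff_code.symm

theorem pp_con {d i t m c : α → ℕ} (hd : Primrec d) (hi : Primrec i) (ht : Primrec t)
    (hm : Primrec m) (hc : Primrec c) :
    PrimrecPred (fun a => Con (d a) (i a) (t a) (m a) (c a).testBit) := by
  unfold Con
  exact (pp_imp (pp_le (pr_tM ht) hm) (pp_cov hi (pr_tM ht) hc (pr_tu ht) (pr_tv ht))).and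
    (pp_opt hd hi (pr_tM ht) (pr_tc ht) hm hc)

theorem pp_base {Ap : ℕ → ℕ → ℕ → Prop}
    (hAp : PrimrecPred (fun p : ℕ × ℕ × ℕ => Ap p.1 p.2.1 p.2.2)) {d m c : α → ℕ}
    (hd : Primrec d) (hm : Primrec m) (hc : Primrec c) :
    PrimrecPred (fun a => Base Ap (d a) (m a) (c a).testBit) := by
  unfold Base
  refine PrimrecPred.and ?_ ?_
  · refine pp_all (P := fun a x => Ap (d a) (m a) x → (c a).testBit x = true)
      (pr_pow (pr_succ hm)) ?_
    refine pp_imp ?_ (pp_bit (hc.comp Primrec.fst) Primrec.snd)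
    exact PrimrecPred.comp (f := fun p : α × ℕ => (d p.1, m p.1, p.2)) hAp
      ((hd.comp Primrec.fst).pair ((hm.comp Primrec.fst).pair Primrec.snd))
  · refine pp_all (P := fun a n => cnt (c a).testBit n * 2 ^ d a ≤ 2 ^ n) (pr_succ hm) ?_
    exact pp_le (pr_mul (pr_cnt (hc.comp Primrec.fst) Primrec.snd) (pr_pow (hd.comp Primrec.fst)))
      (pr_pow Primrec.snd)

theorem pr_getD {h : α → List ℕ} {j : α → ℕ} (hh : Primrec h) (hj : Primrec j) :
    Primrec (fun a => (h a).getD (j a) 0) :=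
  (Primrec.list_getD 0).comp hh hj

theorem pp_Q {Ap : ℕ → ℕ → ℕ → Prop}
    (hAp : PrimrecPred (fun p : ℕ × ℕ × ℕ => Ap p.1 p.2.1 p.2.2)) {d n t m c : α → ℕ}
    {h : α → List ℕ} (hd : Primrec d) (hn : Primrec n) (hh : Primrec h) (ht : Primrec t)
    (hm : Primrec m) (hc : Primrec c) :
    PrimrecPred (fun a => Q Ap (d a) (n a) (fun j => (h a).getD j 0) (t a) (m a)
      (c a).testBit) := by
  unfold Q
  refine PrimrecPred.and (PrimrecPred.and (pp_base hAp hd hm hc) (PrimrecPred.and ?_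
    (pp_con hd hn ht hm hc))) (PrimrecPred.and (pp_le hn (pr_tM ht)) ?_)
  · refine pp_all (P := fun a j => Con (d a) j ((h a).getD j 0) (m a) (c a).testBit) hn ?_
    exact pp_con (hd.comp Primrec.fst) Primrec.snd (pr_getD (hh.comp Primrec.fst) Primrec.snd)
      (hm.comp Primrec.fst) (hc.comp Primrec.fst)
  · refine pp_all (P := fun a j => tM ((h a).getD j 0) ≤ tM (t a)) hn ?_
    exact pp_le (pr_tM (pr_getD (hh.comp Primrec.fst) Primrec.snd)) (pr_tM (ht.comp Primrec.fst))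

end comb2

/-- Level-`m` feasibility of the history `g 0, …, g (n-1), t`. -/
def Feas (Ap : ℕ → ℕ → ℕ → Prop) (d n : ℕ) (g : ℕ → ℕ) (t m : ℕ) : Prop :=
  ∃ B, Q Ap d n g t m B

theorem feas_iff {Ap : ℕ → ℕ → ℕ → Prop} {d n : ℕ} {g : ℕ → ℕ} {t m : ℕ} :
    Feas Ap d n g t m ↔ ∃ c < 2 ^ 2 ^ (m + 1), Q Ap d n g t m c.testBit := by
  constructor
  · rintro ⟨B, hB⟩
    obtain ⟨c, hc, hcB⟩ := exists_code (2 ^ (m + 1)) B
    exact ⟨c, hc, q_congr (fun x hx => (hcB x hx).symm) hB⟩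
  · rintro ⟨c, -, hB⟩
    exact ⟨_, hB⟩

theorem pp_feas {α : Type*} [Primcodable α] {Ap : ℕ → ℕ → ℕ → Prop}
    (hAp : PrimrecPred (fun p : ℕ × ℕ × ℕ => Ap p.1 p.2.1 p.2.2)) {d n t m : α → ℕ}
    {h : α → List ℕ} (hd : Primrec d) (hn : Primrec n) (hh : Primrec h) (ht : Primrec t)
    (hm : Primrec m) :
    PrimrecPred (fun a => Feas Ap (d a) (n a) (fun j => (h a).getD j 0) (t a) (m a)) := by
  have key : PrimrecPred (fun a => ∃ c < 2 ^ 2 ^ (m a + 1),
      Q Ap (d a) (n a) (fun j => (h a).getD j 0) (t a) (m a) c.testBit) := by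
    refine pp_ex (P := fun a (c : ℕ) => Q Ap (d a) (n a) (fun j => (h a).getD j 0) (t a) (m a)
      c.testBit) (pr_pow (pr_pow (pr_succ hm))) ?_
    exact pp_Q hAp (hd.comp Primrec.fst) (hn.comp Primrec.fst) (hh.comp Primrec.fst)
      (ht.comp Primrec.fst) (hm.comp Primrec.fst) Primrec.snd
  exact key.of_eq fun a => feas_iff.symm

end Pool.Agent.Run7.h57.TR
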