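import Mathlib

/-!
# Common incompressible prefix lengths of two 2-random sequences: the combinatorial core

A string `σ` of length `n` is coded by its *node* `2^n + (value of σ)`, so the nodes of level `n`
are the numbers in `[2^n, 2^(n+1))` and the parent of `x` is `x / 2`.

`B : ℕ → Bool` is a set of nodes (it will contain all nodes of compressible strings).  The pair
`(x, y)` of nodes of level `m` is *alive* from `i` on if for each `n` between `i` and `m` one of
the prefixes of length `n` of `x` and of `y` is in `B`.  A *cover* of the alive pairs is a pair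
`(u, v)` of sets of nodes of level `m` such that each alive pair `(x, y)` has `x ∈ u` or `y ∈ v`.
The heart of the proof is the lattice property of minimum vertex covers (`uncross`): if `(U_i,V_i)`
are (nearly) minimum covers of an increasing sequence of bipartite graphs, then the union of all
`U_i` is at most as large as the last minimum.
-/

set_option autoImplicit false

namespace Pool.Agent.Run7.h57.TR

/-- The number of nodes of level `n` in `B`. -/
def cnt (B : ℕ → Bool) (n : ℕ) : ℕ := ∑ s ∈ Finset.range (2 ^ n), (B (2 ^ n + s)).toNat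

/-- The nodes of level `n`. -/
def lev (n : ℕ) : Finset ℕ := Finset.Ico (2 ^ n) (2 ^ (n + 1))

theorem mem_lev {n x : ℕ} : x ∈ lev n ↔ 2 ^ n ≤ x ∧ x < 2 ^ (n + 1) := by
  simp [lev]

theorem mem_lev' {n x : ℕ} : x ∈ lev n ↔ ∃ s < 2 ^ n, x = 2 ^ n + s := by
  rw [mem_lev, pow_succ]
  constructor
  · rintro ⟨h1, h2⟩
    exact ⟨x - 2 ^ n, by omega, by omega⟩
  · rintro ⟨s, h1, h2⟩
    omega

theorem cnt_eq_card (B : ℕ → Bool) (n : ℕ) :
    cnt B n = ((lev n).filter (fun x => B x = true)).card := by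
  classical
  rw [Finset.card_filter, cnt, lev, Finset.sum_Ico_eq_sum_range]
  have h : 2 ^ (n + 1) - 2 ^ n = 2 ^ n := by
    rw [pow_succ]; omega
  rw [h]
  refine Finset.sum_congr rfl fun s _ => ?_
  cases B (2 ^ n + s) <;> simp

theorem cnt_congr {B B' : ℕ → Bool} {n : ℕ} (h : ∀ x < 2 ^ (n + 1), B x = B' x) :
    cnt B n = cnt B' n := by
  unfold cnt
  refine Finset.sum_congr rfl fun s hs => ?_
  rw [h]
  have := Finset.mem_range.1 hs
  rw [pow_succ]; omega

/-- `x` and `y` (nodes of level `m`) are alive from `i` on. -/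
def Alive (i m : ℕ) (B : ℕ → Bool) (x y : ℕ) : Prop :=
  ∀ j < m + 1 - i, B (x / 2 ^ j) = true ∨ B (y / 2 ^ j) = true

/-- `(u, v)` covers all alive pairs at level `m`. -/
def Cov (i m : ℕ) (B u v : ℕ → Bool) : Prop :=
  ∀ s < 2 ^ m, ∀ t < 2 ^ m, Alive i m B (2 ^ m + s) (2 ^ m + t) →
    u (2 ^ m + s) = true ∨ v (2 ^ m + t) = true

theorem cov_iff {i m : ℕ} {B u v : ℕ → Bool} :
    Cov i m B u v ↔ ∀ x ∈ lev m, ∀ y ∈ lev m, Alive i m B x y → u x = true ∨ v y = true := by
  constructor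
  · intro h x hx y hy
    obtain ⟨s, hs, rfl⟩ := mem_lev'.1 hx
    obtain ⟨t, ht, rfl⟩ := mem_lev'.1 hy
    exact h s hs t ht
  · intro h s hs t ht
    exact h _ (mem_lev'.2 ⟨s, hs, rfl⟩) _ (mem_lev'.2 ⟨t, ht, rfl⟩)

theorem alive_congr {i m : ℕ} {B B' : ℕ → Bool} (h : ∀ x < 2 ^ (m + 1), B x = B' x) {x y : ℕ}
    (hx : x < 2 ^ (m + 1)) (hy : y < 2 ^ (m + 1)) (ha : Alive i m B x y) : Alive i m B' x y := by
  intro j hj
  have h1 : x / 2 ^ j < 2 ^ (m + 1) := lt_of_le_of_lt (Nat.div_le_self _ _) hx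
  have h2 : y / 2 ^ j < 2 ^ (m + 1) := lt_of_le_of_lt (Nat.div_le_self _ _) hy
  rw [← h _ h1, ← h _ h2]
  exact ha j hj

theorem alive_mono {i i' m : ℕ} (hi : i ≤ i') {B : ℕ → Bool} {x y : ℕ} (ha : Alive i m B x y) :
    Alive i' m B x y := fun j hj => ha j (by omega)

theorem alive_up {i m k : ℕ} {B : ℕ → Bool} {x y : ℕ} (ha : Alive i (m + k) B x y) :
    Alive i m B (x / 2 ^ k) (y / 2 ^ k) := by
  intro j hj
  have := ha (k + j) (by omega)
  rwa [pow_add, ← Nat.div_div_eq_div_mul, ← Nat.div_div_eq_div_mul] at this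

theorem lev_div {m k x : ℕ} (hx : x ∈ lev (m + k)) : x / 2 ^ k ∈ lev m := by
  rw [mem_lev] at hx ⊢
  obtain ⟨h1, h2⟩ := hx
  constructor
  · rw [Nat.le_div_iff_mul_le (by positivity), ← pow_add]
    exact h1
  · rw [Nat.div_lt_iff_lt_mul (by positivity), ← pow_add]
    have : m + 1 + k = m + k + 1 := by ring
    rw [this]
    exact h2

theorem cov_congr {i m : ℕ} {B B' u u' v v' : ℕ → Bool} (h : ∀ x < 2 ^ (m + 1), B x = B' x)
    (hu : ∀ x < 2 ^ (m + 1), u x = u' x) (hv : ∀ x < 2 ^ (m + 1), v x = v' x)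
    (hc : Cov i m B u v) : Cov i m B' u' v' := by
  rw [cov_iff] at hc ⊢
  intro x hx y hy ha
  have hx' := (mem_lev.1 hx).2
  have hy' := (mem_lev.1 hy).2
  rw [← hu x hx', ← hv y hy']
  exact hc x hx y hy (alive_congr (fun z hz => (h z hz).symm) hx' hy' ha)

/-- Lift a set of nodes by `k` levels. -/
def lift (k : ℕ) (u : ℕ → Bool) (x : ℕ) : Bool := u (x / 2 ^ k)

theorem cov_lift {i m k : ℕ} {B u v : ℕ → Bool} (h : Cov i m B u v) :
    Cov i (m + k) B (lift k u) (lift k v) := by
  rw [cov_iff] at h ⊢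
  intro x hx y hy ha
  exact h _ (lev_div hx) _ (lev_div hy) (alive_up ha)

theorem sum_two_mul (N : ℕ) (F : ℕ → ℕ) :
    ∑ s ∈ Finset.range (N * 2), F (s / 2) = 2 * ∑ s ∈ Finset.range N, F s := by
  induction N with
  | zero => simp
  | succ N ih =>
    have : (N + 1) * 2 = N * 2 + 1 + 1 := by ring
    rw [this, Finset.sum_range_succ, Finset.sum_range_succ, ih, Finset.sum_range_succ]
    have h1 : N * 2 / 2 = N := by omega
    have h2 : (N * 2 + 1) / 2 = N := by omega
    rw [h1, h2]; ring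

theorem cnt_lift_one (u : ℕ → Bool) (n : ℕ) : cnt (lift 1 u) (n + 1) = 2 * cnt u n := by
  unfold cnt
  rw [pow_succ, ← sum_two_mul]
  refine Finset.sum_congr rfl fun s _ => ?_
  unfold lift
  have : (2 ^ n * 2 + s) / 2 ^ 1 = 2 ^ n + s / 2 := by
    rw [pow_one]; omega
  rw [this]

theorem lift_succ (k : ℕ) (u : ℕ → Bool) : lift (k + 1) u = lift 1 (lift k u) := by
  funext x
  unfold lift
  rw [pow_one, Nat.div_div_eq_div_mul, pow_succ, mul_comm]

theorem cnt_lift (u : ℕ → Bool) (n k : ℕ) : cnt (lift k u) (n + k) = 2 ^ k * cnt u n := by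
  induction k with
  | zero => 
    have : lift 0 u = u := by
      funext x; simp [lift]
    simp [this]
  | succ k ih =>
    rw [lift_succ, ← add_assoc, cnt_lift_one, ih, pow_succ]; ring

/-- Each set of numbers below `K` has a code. -/
theorem exists_code (K : ℕ) (B : ℕ → Bool) : ∃ c < 2 ^ K, ∀ x < K, c.testBit x = B x := by
  refine ⟨Nat.ofBits (fun i : Fin K => B i), Nat.ofBits_lt_two_pow _, fun x hx => ?_⟩
  rw [Nat.testBit_ofBits_lt _ _ hx]

/-- The lattice property of (nearly) minimum vertex covers of an increasing sequence of bipartite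
graphs `E k ⊆ E (k+1) ⊆ … ⊆ E L`. -/
theorem uncross {α : Type*} [DecidableEq α] (L : ℕ) (E : ℕ → α → α → Prop)
    (hE : ∀ i x y, E i x y → E (i + 1) x y) (U V : ℕ → Finset α) (D : ℕ → ℝ) (c : ℝ)
    (hcov : ∀ i ≤ L, ∀ x y, E i x y → x ∈ U i ∨ y ∈ V i)
    (hopt : ∀ i ≤ L, ∀ F G : Finset α, (∀ x y, E i x y → x ∈ F ∨ y ∈ G) →
      ((U i).card : ℝ) + (V i).card ≤ F.card + G.card + D i)
    (hc : ∃ F G : Finset α, (∀ x y, E L x y → x ∈ F ∨ y ∈ G) ∧ (F.card : ℝ) + G.card ≤ c) :
    ∀ k ≤ L, ∃ P Q : Finset α, (∀ i ∈ Finset.Icc (L - k) L, U i ⊆ P) ∧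
      (∀ x y, E (L - k) x y → x ∈ P ∨ y ∈ Q) ∧
      (P.card : ℝ) + Q.card ≤ c + ∑ i ∈ Finset.Icc (L - k) L, D i := by
  intro k
  induction k with
  | zero =>
    intro _
    refine ⟨U L, V L, ?_, ?_, ?_⟩
    · intro i hi
      simp at hi
      rw [hi]
    · simpa using hcov L le_rfl
    · obtain ⟨F, G, hFG, hle⟩ := hc
      have := hopt L le_rfl F G hFG
      simp
      linarith
  | succ k ih =>
    intro hk
    obtain ⟨P, Q, h1, h2, h3⟩ := ih (by omega)
    have hLk : L - k = L - (k + 1) + 1 := by omega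
    refine ⟨U (L - (k + 1)) ∪ P, V (L - (k + 1)) ∩ Q, ?_, ?_, ?_⟩
    · intro i hi
      rw [Finset.mem_Icc] at hi
      rcases Nat.lt_or_ge (L - (k + 1)) i with h | h
      · exact (h1 i (Finset.mem_Icc.2 ⟨by omega, hi.2⟩)).trans Finset.subset_union_right
      · have : i = L - (k + 1) := by omega
        rw [this]
        exact Finset.subset_union_left
    · intro x y hxy
      have ha := hcov (L - (k + 1)) (by omega) x y hxy
      have hb := h2 x y (by rw [hLk]; exact hE _ _ _ hxy)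
      simp only [Finset.mem_union, Finset.mem_inter]
      tauto
    · have ha := hopt (L - (k + 1)) (by omega) (U (L - (k + 1)) ∩ P) (V (L - (k + 1)) ∪ Q) (by
        intro x y hxy
        have ha := hcov (L - (k + 1)) (by omega) x y hxy
        have hb := h2 x y (by rw [hLk]; exact hE _ _ _ hxy)
        simp only [Finset.mem_union, Finset.mem_inter]
        tauto)
      have e1 := Finset.card_union_add_card_inter (U (L - (k + 1))) P
      have e2 := Finset.card_union_add_card_inter (V (L - (k + 1))) Q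
      have e1' : ((U (L - (k + 1)) ∪ P).card : ℝ) + (U (L - (k + 1)) ∩ P).card
        = (U (L - (k + 1))).card + P.card := by exact_mod_cast e1
      have e2' : ((V (L - (k + 1)) ∪ Q).card : ℝ) + (V (L - (k + 1)) ∩ Q).card
        = (V (L - (k + 1))).card + Q.card := by exact_mod_cast e2
      have e3 : ∑ i ∈ Finset.Icc (L - (k + 1)) L, D i
          = D (L - (k + 1)) + ∑ i ∈ Finset.Icc (L - k) L, D i := by
        rw [hLk, ← Finset.sum_Ioc_add_eq_sum_Icc (by omega : L - (k + 1) ≤ L), add_comm]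
        have e4 : Finset.Ioc (L - (k + 1)) L = Finset.Icc (L - (k + 1) + 1) L := by
          ext z; simp only [Finset.mem_Ioc, Finset.mem_Icc]; omega
        rw [e4]
      rw [e3]
      linarith

end Pool.Agent.Run7.h57.TR
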