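import Pool.Agent.Run7.h57.TR.Test

/-!
# Two 2-random sequences have infinitely many common incompressible prefix lengths
-/

set_option autoImplicit false

namespace Pool.Agent.Run7.h57.TR

open Nat.Partrec

/-- Length of the string coded by `e`. -/
def len (e : ℕ) : ℕ := ((Encodable.decode (α := List Bool) e).getD []).length

theorem pr_len : Primrec len :=
  Primrec.list_length.comp (Primrec.option_getD.comp Primrec.decode
    (Primrec.const ([] : List Bool)))

/-- Stage-`s` approximation to the nodes of strings of length `n` with a program shorter than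
`n - d`. -/
def App (c : Code) (d s x : ℕ) : Prop :=
  ∃ e < s, Code.evaln s c e = some x ∧ 2 ^ (len e + d + 1) ≤ x

theorem app_mono (c : Code) (d s x : ℕ) (h : App c d s x) : App c d (s + 1) x := by
  obtain ⟨e, he, h1, h2⟩ := h
  exact ⟨e, by omega, Code.evaln_mono (Nat.le_succ s) h1, h2⟩

theorem app_prim (c : Code) : PrimrecPred (fun p : ℕ × ℕ × ℕ => App c p.1 p.2.1 p.2.2) := by
  unfold App
  refine pp_ex (P := fun (p : ℕ × ℕ × ℕ) e => Code.evaln p.2.1 c e = some p.2.2 ∧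
    2 ^ (len e + p.1 + 1) ≤ p.2.2) (Primrec.fst.comp Primrec.snd) ?_
  have hs : Primrec (fun q : (ℕ × ℕ × ℕ) × ℕ => q.1.2.1) :=
    Primrec.fst.comp (Primrec.snd.comp Primrec.fst)
  have hx : Primrec (fun q : (ℕ × ℕ × ℕ) × ℕ => q.1.2.2) :=
    Primrec.snd.comp (Primrec.snd.comp Primrec.fst)
  have hd : Primrec (fun q : (ℕ × ℕ × ℕ) × ℕ => q.1.1) := Primrec.fst.comp Primrec.fst
  have he : Primrec (fun q : (ℕ × ℕ × ℕ) × ℕ => Code.evaln q.1.2.1 c q.2) :=
    Code.primrec_evaln.comp ((hs.pair (Primrec.const c)).pair Primrec.snd)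
  refine PrimrecPred.and (Primrec.eq.comp he (Primrec.option_some.comp hx)) ?_
  exact pp_le (pr_pow (pr_succ (pr_add (pr_len.comp Primrec.snd) hd))) hx

theorem exists_machine (U : List Bool →. List Bool) (hU : Partrec U) :
    ∃ c : Code, ∀ e x, x ∈ Code.eval c e ↔
      ∃ q : List Bool, Encodable.decode e = some q ∧ ∃ σ ∈ U q, node σ = x := by
  have hg : Partrec (fun q : List Bool => (U q).map node) :=
    hU.map (pr_node.to_comp.comp Computable.snd).to₂
  obtain ⟨c, hc⟩ := Code.exists_code.1 hg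
  refine ⟨c, fun e x => ?_⟩
  rw [hc]
  simp only [Part.mem_bind_iff, Part.mem_map_iff, Part.mem_coe, Option.mem_def]
  constructor
  · rintro ⟨q, hq, y, ⟨σ, hσ, rfl⟩, rfl⟩
    exact ⟨q, hq, σ, hσ, rfl⟩
  · rintro ⟨q, hq, σ, hσ, rfl⟩
    exact ⟨q, hq, node σ, ⟨σ, hσ, rfl⟩, rfl⟩

theorem app_iff {U : List Bool →. List Bool} {c : Code}
    (hc : ∀ e x, x ∈ Code.eval c e ↔
      ∃ q : List Bool, Encodable.decode e = some q ∧ ∃ σ ∈ U q, node σ = x) (d x : ℕ) :
    (∃ s, App c d s x) ↔ ∃ q : List Bool, (∃ σ ∈ U q, node σ = x) ∧ 2 ^ (q.length + d + 1) ≤ x := by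
  constructor
  · rintro ⟨s, e, -, h1, h2⟩
    obtain ⟨q, hq, h3⟩ := (hc e x).1 (Code.evaln_sound h1)
    refine ⟨q, h3, ?_⟩
    have : len e = q.length := by simp [len, hq]
    rwa [this] at h2
  · rintro ⟨q, h1, h2⟩
    have h3 : x ∈ Code.eval c (Encodable.encode q) :=
      (hc _ _).2 ⟨q, Encodable.encodek q, h1⟩
    obtain ⟨s, hs⟩ := Code.evaln_complete.1 h3
    refine ⟨s + Encodable.encode q + 1, Encodable.encode q, by omega, ?_, ?_⟩
    · exact Code.evaln_mono (by omega) hs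
    · have : len (Encodable.encode q) = q.length := by simp [len]
      rwa [this]

theorem base_exists {U : List Bool →. List Bool} {c : Code}
    (hc : ∀ e x, x ∈ Code.eval c e ↔
      ∃ q : List Bool, Encodable.decode e = some q ∧ ∃ σ ∈ U q, node σ = x) (d : ℕ) :
    ∃ B, ∀ m, Base (App c) d m B := by
  classical
  refine ⟨fun x => decide (∃ s, App c d s x), fun m => ⟨fun x _ h => ?_, fun n _ => ?_⟩⟩
  · exact decide_eq_true ⟨m, h⟩
  · rw [cnt_eq_card]
    set F := (lev n).filter (fun x => decide (∃ s, App c d s x) = true) with hF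
    have hmem : ∀ x ∈ F, ∃ q : List Bool, (∃ σ ∈ U q, node σ = x) ∧ q.length + d < n := by
      intro x hx
      obtain ⟨hx1, hx2⟩ := Finset.mem_filter.1 hx
      obtain ⟨q, h1, h2⟩ := (app_iff hc d x).1 (of_decide_eq_true hx2)
      refine ⟨q, h1, ?_⟩
      have h3 := (mem_lev.1 hx1).2
      have h4 := (Nat.pow_lt_pow_iff_right (by norm_num : 1 < 2)).1 (lt_of_le_of_lt h2 h3)
      omega
    rcases Nat.lt_or_ge n d with hnd | hnd
    · have : F = ∅ := by
        rw [Finset.eq_empty_iff_forall_notMem]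
        intro x hx
        obtain ⟨q, -, h2⟩ := hmem x hx
        omega
      rw [this]; simp
    · choose! q hq1 hq2 using hmem
      have hcard : F.card ≤ (Finset.range (2 ^ (n - d))).card := by
        refine Finset.card_le_card_of_injOn (fun x => node (q x)) ?_ ?_
        · intro x hx
          have h1 := (mem_lev.1 (node_mem_lev (q x))).2
          have h2 := hq2 x hx
          simp only [Finset.coe_range, Set.mem_Iio]
          refine lt_of_lt_of_le h1 (Nat.pow_le_pow_right (by norm_num) (by omega))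
        · intro x hx y hy hxy
          have h1 := node_inj _ _ hxy
          obtain ⟨σ, hσ, h2⟩ := hq1 x hx
          obtain ⟨τ, hτ, h3⟩ := hq1 y hy
          rw [h1] at hσ
          rw [← h2, ← h3, Part.mem_unique hσ hτ]
      rw [Finset.card_range] at hcard
      calc F.card * 2 ^ d ≤ 2 ^ (n - d) * 2 ^ d := Nat.mul_le_mul_right _ hcard
        _ = 2 ^ n := by rw [← pow_add, Nat.sub_add_cancel hnd]

theorem main (U : List Bool →. List Bool) (hU : Partrec U) (X Y : ℕ → Bool)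
    (hX : ¬ ∃ R : ℕ × List Bool × ℕ × ℕ → Bool, Computable R ∧
          (∀ k : ℕ, ∀ S : Finset (List Bool),
            (∀ σ ∈ S, ∃ a : ℕ, ∀ b : ℕ, R (k, σ, a, b) = true) →
            ∑ σ ∈ S, ((1:ℝ)/2) ^ σ.length ≤ ((1:ℝ)/2) ^ k) ∧
          ∀ k : ℕ, ∃ n : ℕ, ∃ a : ℕ, ∀ b : ℕ,
            R (k, List.ofFn (fun i : Fin n => X i), a, b) = true)
    (hY : ¬ ∃ R : ℕ × List Bool × ℕ × ℕ → Bool, Computable R ∧
          (∀ k : ℕ, ∀ S : Finset (List Bool),
            (∀ σ ∈ S, ∃ a : ℕ, ∀ b : ℕ, R (k, σ, a, b) = true) →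
            ∑ σ ∈ S, ((1:ℝ)/2) ^ σ.length ≤ ((1:ℝ)/2) ^ k) ∧
          ∀ k : ℕ, ∃ n : ℕ, ∃ a : ℕ, ∀ b : ℕ,
            R (k, List.ofFn (fun i : Fin n => Y i), a, b) = true) :
    ∃ d : ℕ, ∃ᶠ n in Filter.atTop,
        (∀ q : List Bool, List.ofFn (fun i : Fin n => X i) ∈ U q → n ≤ q.length + d) ∧
        (∀ q : List Bool, List.ofFn (fun i : Fin n => Y i) ∈ U q → n ≤ q.length + d) := by
  classical
  by_contra hcon
  push Not at hcon
  obtain ⟨c, hc⟩ := exists_machine U hU
  have hpath : ∀ d, ∃ p, IsPath (App c) d p := fun d => exists_path (app_mono c) (base_exists hc d)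
  choose P hP using hpath
  have hin : ∀ d n (Z : ℕ → Bool), (∃ q : List Bool, List.ofFn (fun i : Fin n => Z i) ∈ U q ∧
      q.length + d < n) → ∃ s, App c d s (nd Z n) := by
    rintro d n Z ⟨q, h1, h2⟩
    refine (app_iff hc d _).2 ⟨q, ⟨_, h1, rfl⟩, ?_⟩
    refine le_trans (Nat.pow_le_pow_right (by norm_num) (by omega)) (mem_lev.1 (nd_mem_lev Z n)).1
  have hcov : ∀ d, (∃ n, Out tu n (P d) (tM (P d n)) (nd X (tM (P d n)))) ∨
      (∃ n, Out tv n (P d) (tM (P d n)) (nd Y (tM (P d n)))) := by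
    intro d
    obtain ⟨N, hN⟩ := Filter.eventually_atTop.1 (hcon d)
    refine exists_cover (app_mono c) (hP d) X Y N fun n hn => ?_
    have h1 := hN n hn
    by_cases h2 : ∀ q : List Bool, List.ofFn (fun i : Fin n => X i) ∈ U q → n ≤ q.length + d
    · right
      obtain ⟨q, h3, h4⟩ := h1 h2
      exact hin d n Y ⟨q, h3, by omega⟩
    · left
      push Not at h2
      obtain ⟨q, h3, h4⟩ := h2
      exact hin d n X ⟨q, h3, by omega⟩
  have htu : Primrec tu := pr_tu (t := fun t : ℕ => t) Primrec.id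
  have htv : Primrec tv := pr_tv (t := fun t : ℕ => t) Primrec.id
  by_cases h1 : ∀ k, ∃ d, k + 3 ≤ d ∧ ∃ n, Out tu n (P d) (tM (P d n)) (nd X (tM (P d n)))
  · exact hX (exists_test (app_mono c) (app_prim c) P hP tu htu (Or.inl rfl) X h1)
  · by_cases h2 : ∀ k, ∃ d, k + 3 ≤ d ∧ ∃ n, Out tv n (P d) (tM (P d n)) (nd Y (tM (P d n)))
    · exact hY (exists_test (app_mono c) (app_prim c) P hP tv htv (Or.inr rfl) Y h2)
    · push Not at h1 h2
      obtain ⟨k1, h1⟩ := h1
      obtain ⟨k2, h2⟩ := h2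
      rcases hcov (k1 + k2 + 3) with ⟨n, h3⟩ | ⟨n, h3⟩
      · exact h1 _ (by omega) n h3
      · exact h2 _ (by omega) n h3

end Pool.Agent.Run7.h57.TR
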