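import Pool.Agent.Run7.h57.TR.Path

/-!
# The canonical path gives two small open sets which cover
-/

set_option autoImplicit false

namespace Pool.Agent.Run7.h57.TR

/-- The node of a string. -/
def node (σ : List Bool) : ℕ := σ.foldl (fun x b => 2 * x + b.toNat) 1

theorem node_append (σ : List Bool) (b : Bool) : node (σ ++ [b]) = 2 * node σ + b.toNat := by
  simp [node]

theorem node_mem_lev (σ : List Bool) : node σ ∈ lev σ.length := by
  induction σ using List.reverseRecOn with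
  | nil => simp [node, mem_lev]
  | append_singleton σ b ih =>
    rw [node_append, List.length_append]
    rw [mem_lev] at ih ⊢
    simp only [List.length_singleton]
    have e1 : 2 ^ (σ.length + 1) = 2 * 2 ^ σ.length := by ring
    have e2 : 2 ^ (σ.length + 1 + 1) = 2 * 2 ^ (σ.length + 1) := by ring
    have hb := b.toNat_lt
    rw [e2]
    omega

theorem node_inj : ∀ σ τ : List Bool, node σ = node τ → σ = τ := by
  intro σ
  induction σ using List.reverseRecOn with
  | nil =>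
    intro τ h
    rcases List.eq_nil_or_concat τ with rfl | ⟨τ', b, rfl⟩
    · rfl
    · exfalso
      rw [List.concat_eq_append, node_append] at h
      have h1 : node ([] : List Bool) = 1 := rfl
      have h2 := (mem_lev.1 (node_mem_lev τ')).1
      have h3 : 1 ≤ 2 ^ τ'.length := Nat.one_le_two_pow
      omega
  | append_singleton σ b ih =>
    intro τ h
    rcases List.eq_nil_or_concat τ with rfl | ⟨τ', b', rfl⟩
    · exfalso
      rw [node_append] at h
      have h1 : node ([] : List Bool) = 1 := rfl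
      have h2 := (mem_lev.1 (node_mem_lev σ)).1
      have h3 : 1 ≤ 2 ^ σ.length := Nat.one_le_two_pow
      omega
    · rw [List.concat_eq_append, node_append, node_append] at h
      have hb := b.toNat_lt
      have hb' := b'.toNat_lt
      have e1 : node σ = node τ' := by omega
      have e2 : b.toNat = b'.toNat := by omega
      have e3 : b = b' := by
        revert e2; cases b <;> cases b' <;> simp
      rw [ih τ' e1, e3, List.concat_eq_append]

/-- The node of the prefix of length `n`. -/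
def nd (X : ℕ → Bool) (n : ℕ) : ℕ := node (List.ofFn (fun i : Fin n => X i))

theorem nd_succ (X : ℕ → Bool) (n : ℕ) : nd X (n + 1) = 2 * nd X n + (X n).toNat := by
  unfold nd
  rw [List.ofFn_succ', List.concat_eq_append, node_append]
  rfl

theorem nd_mem_lev (X : ℕ → Bool) (n : ℕ) : nd X n ∈ lev n := by
  have := node_mem_lev (List.ofFn (fun i : Fin n => X i))
  rwa [List.length_ofFn] at this

theorem nd_div (X : ℕ → Bool) (n k : ℕ) : nd X (n + k) / 2 ^ k = nd X n := by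
  induction k with
  | zero => simp
  | succ k ih =>
    rw [← add_assoc, nd_succ, pow_succ, mul_comm (2 ^ k) 2, ← Nat.div_div_eq_div_mul]
    have hb := (X (n + k)).toNat_lt
    have : (2 * nd X (n + k) + (X (n + k)).toNat) / 2 = nd X (n + k) := by omega
    rw [this, ih]

theorem nd_div' (X : ℕ → Bool) {n m : ℕ} (h : n ≤ m) : nd X m / 2 ^ (m - n) = nd X n := by
  obtain ⟨k, rfl⟩ := Nat.exists_eq_add_of_le h
  rw [Nat.add_sub_cancel_left, nd_div]

/-- `x` (of length `l`) is put in the open set at stage `n` of the history `g`. -/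
def Out (sel : ℕ → ℕ) (n : ℕ) (g : ℕ → ℕ) (l x : ℕ) : Prop :=
  l = tM (g n) ∧ (sel (g n)).testBit x = true ∧
    ∀ j < n, (sel (g j)).testBit (x / 2 ^ (tM (g n) - tM (g j))) = false

/-- The set of the `i`-th condition lifted to level `m`. -/
def Us (sel : ℕ → ℕ) (p : ℕ → ℕ) (i m : ℕ) : Finset ℕ :=
  (lev m).filter (fun x => (sel (p i)).testBit (x / 2 ^ (m - tM (p i))) = true)

theorem card_Us (sel : ℕ → ℕ) (p : ℕ → ℕ) {i m : ℕ} (h : tM (p i) ≤ m) :
    (Us sel p i m).card = 2 ^ (m - tM (p i)) * cnt (sel (p i)).testBit (tM (p i)) := by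
  rw [← cnt_lift, Nat.add_sub_cancel' h, cnt_eq_card]
  rfl

theorem sum_geo (L : ℕ) : ∑ i ∈ Finset.Icc 0 L, (1 : ℝ) / 2 ^ (i + 1) = 1 - 1 / 2 ^ (L + 1) := by
  induction L with
  | zero => simp; norm_num
  | succ L ih =>
    rw [Finset.sum_Icc_succ_top (by omega : 0 ≤ L + 1), ih]
    ring

theorem alive_to {i M m : ℕ} (h : M ≤ m) {B : ℕ → Bool} {x y : ℕ} (ha : Alive i m B x y) :
    Alive i M B (x / 2 ^ (m - M)) (y / 2 ^ (m - M)) := by
  obtain ⟨k, rfl⟩ := Nat.exists_eq_add_of_le h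
  rw [Nat.add_sub_cancel_left]
  exact alive_up ha

theorem lev_to {M m : ℕ} (h : M ≤ m) {x : ℕ} (hx : x ∈ lev m) : x / 2 ^ (m - M) ∈ lev M := by
  obtain ⟨k, rfl⟩ := Nat.exists_eq_add_of_le h
  rw [Nat.add_sub_cancel_left]
  exact lev_div hx

/-- The union of the left sets, and the union of the right sets, are small. -/
theorem union_bound {Ap : ℕ → ℕ → ℕ → Prop} {d : ℕ} {p : ℕ → ℕ} {L m : ℕ} {B : ℕ → Bool}
    (hm : m = tM (p L)) (hB : Q Ap d L p (p L) m B) :
    (∃ P : Finset ℕ, (∀ i ≤ L, Us tu p i m ⊆ P) ∧ (P.card : ℝ) ≤ 3 * 2 ^ m / 2 ^ d) ∧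
    (∃ P : Finset ℕ, (∀ i ≤ L, Us tv p i m ⊆ P) ∧ (P.card : ℝ) ≤ 3 * 2 ^ m / 2 ^ d) := by
  classical
  have hM : ∀ i ≤ L, tM (p i) ≤ m := by
    intro i hi
    rcases Nat.lt_or_eq_of_le hi with h | h
    · rw [hm]; exact hB.2.2 i h
    · rw [h, hm]
  have hLm : L ≤ m := by rw [hm]; exact hB.2.1
  have hcon : ∀ i ≤ L, Con d i (p i) m B := by
    intro i hi
    rcases Nat.lt_or_eq_of_le hi with h | h
    · exact hB.1.2.1 i h
    · rw [h]; exact hB.1.2.2
  have hcov : ∀ i ≤ L, ∀ x y, (x ∈ lev m ∧ y ∈ lev m ∧ Alive i m B x y) →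
      x ∈ Us tu p i m ∨ y ∈ Us tv p i m := by
    rintro i hi x y ⟨hx, hy, ha⟩
    have := cov_iff.1 ((hcon i hi).1 (hM i hi)) _ (lev_to (hM i hi) hx) _ (lev_to (hM i hi) hy)
      (alive_to (hM i hi) ha)
    unfold Us
    rw [Finset.mem_filter, Finset.mem_filter]
    tauto
  have hopt : ∀ i ≤ L, ∀ F G : Finset ℕ,
      (∀ x y, (x ∈ lev m ∧ y ∈ lev m ∧ Alive i m B x y) → x ∈ F ∨ y ∈ G) →
      ((Us tu p i m).card : ℝ) + (Us tv p i m).card ≤ F.card + G.card
        + (2 ^ m / 2 ^ d) * (1 / 2 ^ (i + 1)) := by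
    intro i hi F G hFG
    have h1 := (hcon i hi).2 (fun x => decide (x ∈ F)) (fun x => decide (x ∈ G)) (by
      rw [cov_iff]
      intro x hx y hy ha
      simpa using hFG x y ⟨hx, hy, ha⟩)
    have hF : cnt (fun x => decide (x ∈ F)) m ≤ F.card := by
      rw [cnt_eq_card]
      refine Finset.card_le_card fun x hx => ?_
      simpa using (Finset.mem_filter.1 hx).2
    have hG : cnt (fun x => decide (x ∈ G)) m ≤ G.card := by
      rw [cnt_eq_card]
      refine Finset.card_le_card fun x hx => ?_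
      simpa using (Finset.mem_filter.1 hx).2
    have c1 := card_Us tu p (hM i hi)
    have c2 := card_Us tv p (hM i hi)
    set M := tM (p i)
    have hMm : M ≤ m := hM i hi
    have e1 : (2:ℝ) ^ (m - M) * 2 ^ M = 2 ^ m := by
      rw [← pow_add, Nat.sub_add_cancel hMm]
    have h1' : ((cnt (tu (p i)).testBit M : ℝ) + cnt (tv (p i)).testBit M) * 2 ^ m * 2 ^ (d + i + 1)
        ≤ ((cnt (fun x => decide (x ∈ F)) m : ℝ) + cnt (fun x => decide (x ∈ G)) m) * 2 ^ M
          * 2 ^ (d + i + 1) + 2 ^ m * 2 ^ M := by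
      exact_mod_cast h1
    have hF' : (cnt (fun x => decide (x ∈ F)) m : ℝ) ≤ F.card := by exact_mod_cast hF
    have hG' : (cnt (fun x => decide (x ∈ G)) m : ℝ) ≤ G.card := by exact_mod_cast hG
    rw [c1, c2]
    push_cast
    have hp1 : (0:ℝ) < 2 ^ M * 2 ^ (d + i + 1) := by positivity
    have h2 : ((2:ℝ) ^ (m - M) * cnt (tu (p i)).testBit M + 2 ^ (m - M) * cnt (tv (p i)).testBit M)
        * (2 ^ M * 2 ^ (d + i + 1)) ≤ (F.card + G.card + (2 ^ m / 2 ^ d) * (1 / 2 ^ (i + 1)))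
        * (2 ^ M * 2 ^ (d + i + 1)) := by
      have l1 : ((2:ℝ) ^ (m - M) * cnt (tu (p i)).testBit M
          + 2 ^ (m - M) * cnt (tv (p i)).testBit M) * (2 ^ M * 2 ^ (d + i + 1))
          = ((cnt (tu (p i)).testBit M : ℝ) + cnt (tv (p i)).testBit M) * 2 ^ m
            * 2 ^ (d + i + 1) := by
        rw [← e1]; ring
      have l2 : ((2:ℝ) ^ m / 2 ^ d) * (1 / 2 ^ (i + 1)) * (2 ^ M * 2 ^ (d + i + 1))
          = 2 ^ m * 2 ^ M := by
        have : (2:ℝ) ^ (d + i + 1) = 2 ^ d * 2 ^ (i + 1) := by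
          rw [add_assoc, pow_add]
        rw [this]
        field_simp
      rw [l1, add_mul ((F.card : ℝ) + G.card) _ _, l2]
      refine h1'.trans ?_
      have l3 : ((cnt (fun x => decide (x ∈ F)) m : ℝ) + cnt (fun x => decide (x ∈ G)) m) * 2 ^ M
          * 2 ^ (d + i + 1) ≤ (F.card + G.card) * (2 ^ M * 2 ^ (d + i + 1)) := by
        rw [mul_assoc]
        exact mul_le_mul_of_nonneg_right (by linarith) hp1.le
      linarith
    exact le_of_mul_le_mul_right h2 hp1
  have hBc : (((lev m).filter (fun x => B x = true)).card : ℝ) ≤ 2 ^ m / 2 ^ d := by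
    have := hB.1.1.2 m (by omega)
    rw [cnt_eq_card] at this
    rw [le_div_iff₀ (by positivity)]
    exact_mod_cast this
  have htop : ∃ F G : Finset ℕ, (∀ x y, (x ∈ lev m ∧ y ∈ lev m ∧ Alive L m B x y) →
      x ∈ F ∨ y ∈ G) ∧ (F.card : ℝ) + G.card ≤ 2 * (2 ^ m / 2 ^ d) := by
    refine ⟨(lev m).filter (fun x => B x = true), (lev m).filter (fun x => B x = true), ?_, ?_⟩
    · rintro x y ⟨hx, hy, ha⟩
      have := ha 0 (by omega)
      rw [pow_zero, Nat.div_one, Nat.div_one] at this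
      rw [Finset.mem_filter, Finset.mem_filter]
      tauto
    · linarith
  have hgeo : 2 * ((2:ℝ) ^ m / 2 ^ d) + ∑ i ∈ Finset.Icc (L - L) L,
      ((2:ℝ) ^ m / 2 ^ d) * (1 / 2 ^ (i + 1)) ≤ 3 * 2 ^ m / 2 ^ d := by
    rw [Nat.sub_self, ← Finset.mul_sum, sum_geo]
    have h1 : (0:ℝ) < 2 ^ m / 2 ^ d := by positivity
    have h2 : (0:ℝ) ≤ 1 / 2 ^ (L + 1) := by positivity
    have h3 : (2:ℝ) ^ m / 2 ^ d * (1 - 1 / 2 ^ (L + 1)) ≤ 2 ^ m / 2 ^ d * 1 :=
      mul_le_mul_of_nonneg_left (by linarith) h1.le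
    have h4 : 3 * (2:ℝ) ^ m / 2 ^ d = 2 * (2 ^ m / 2 ^ d) + 2 ^ m / 2 ^ d * 1 := by ring
    rw [h4]
    linarith
  constructor
  · obtain ⟨P, Q', h1, -, h3⟩ := uncross L
      (fun i x y => x ∈ lev m ∧ y ∈ lev m ∧ Alive i m B x y)
      (fun i x y h => ⟨h.1, h.2.1, alive_mono (Nat.le_succ i) h.2.2⟩)
      (fun i => Us tu p i m) (fun i => Us tv p i m)
      (fun i => (2 ^ m / 2 ^ d) * (1 / 2 ^ (i + 1))) (2 * (2 ^ m / 2 ^ d)) hcov hopt htop L le_rfl
    refine ⟨P, fun i hi => h1 i (Finset.mem_Icc.2 ⟨by omega, hi⟩), ?_⟩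
    have : (0:ℝ) ≤ Q'.card := Nat.cast_nonneg _
    linarith
  · obtain ⟨P, Q', h1, -, h3⟩ := uncross L
      (fun i x y => y ∈ lev m ∧ x ∈ lev m ∧ Alive i m B y x)
      (fun i x y h => ⟨h.1, h.2.1, alive_mono (Nat.le_succ i) h.2.2⟩)
      (fun i => Us tv p i m) (fun i => Us tu p i m)
      (fun i => (2 ^ m / 2 ^ d) * (1 / 2 ^ (i + 1))) (2 * (2 ^ m / 2 ^ d))
      (fun i hi x y h => (hcov i hi y x h).symm)
      (fun i hi F G hFG => by
        have := hopt i hi G F (fun x y h => (hFG y x h).symm)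
        linarith)
      (by
        obtain ⟨F, G, hFG, hle⟩ := htop
        exact ⟨G, F, fun x y h => (hFG y x h).symm, by linarith⟩) L le_rfl
    refine ⟨P, fun i hi => h1 i (Finset.mem_Icc.2 ⟨by omega, hi⟩), ?_⟩
    have : (0:ℝ) ≤ Q'.card := Nat.cast_nonneg _
    linarith

end Pool.Agent.Run7.h57.TR
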