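import Pool.Agent.Run7.h57.TR.Meas

/-!
# The open sets: measure bound and covering property
-/

set_option autoImplicit false

namespace Pool.Agent.Run7.h57.TR

theorem card_fiber {l m x : ℕ} (hl : l ≤ m) (hx : x ∈ lev l) :
    ((lev m).filter (fun z => z / 2 ^ (m - l) = x)).card = 2 ^ (m - l) := by
  classical
  have h1 : ((lev m).filter (fun z => z / 2 ^ (m - l) = x)).card
      = cnt (lift (m - l) (fun y => decide (y = x))) (l + (m - l)) := by
    rw [Nat.add_sub_cancel' hl, cnt_eq_card]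
    congr 1
    ext z
    simp [lift]
  rw [h1, cnt_lift, cnt_eq_card]
  have h2 : (lev l).filter (fun y => decide (y = x) = true) = {x} := by
    ext z
    simp only [Finset.mem_filter, decide_eq_true_eq, Finset.mem_singleton]
    constructor
    · rintro ⟨_, rfl⟩; rfl
    · rintro rfl; exact ⟨hx, rfl⟩
  rw [h2]; simp

theorem path_mono {Ap : ℕ → ℕ → ℕ → Prop} {d : ℕ} {p : ℕ → ℕ} (hp : IsPath Ap d p) :
    ∀ i L, i ≤ L → tM (p i) ≤ tM (p L) := by
  intro i L h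
  rcases Nat.lt_or_eq_of_le h with h | h
  · obtain ⟨B, hB⟩ := (hp L).1 0
    exact hB.2.2 i h
  · rw [h]

theorem out_bound {Ap : ℕ → ℕ → ℕ → Prop} {d : ℕ} {p : ℕ → ℕ}
    (hp : IsPath Ap d p) (sel : ℕ → ℕ)
    (hsel : ∀ L, ∃ P : Finset ℕ, (∀ i ≤ L, Us sel p i (tM (p L)) ⊆ P) ∧
      (P.card : ℝ) ≤ 3 * 2 ^ tM (p L) / 2 ^ d)
    (S : Finset (List Bool)) (hS : ∀ σ ∈ S, ∃ n, Out sel n p σ.length (node σ)) :
    ∑ σ ∈ S, ((1:ℝ)/2) ^ σ.length ≤ 3 / 2 ^ d := by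
  classical
  choose! N hN using hS
  set L := S.sup N with hL
  have hNL : ∀ σ ∈ S, N σ ≤ L := fun σ hσ => Finset.le_sup hσ
  obtain ⟨P, hP, hPc⟩ := hsel L
  set m := tM (p L) with hm
  have hlen : ∀ σ ∈ S, σ.length ≤ m := by
    intro σ hσ
    rw [(hN σ hσ).1]
    exact path_mono hp _ _ (hNL σ hσ)
  let D : List Bool → Finset ℕ := fun σ => (lev m).filter (fun z => z / 2 ^ (m - σ.length) = node σ)
  have hDc : ∀ σ ∈ S, (D σ).card = 2 ^ (m - σ.length) := fun σ hσ =>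
    card_fiber (hlen σ hσ) (node_mem_lev σ)
  have hsub : S.biUnion D ⊆ P := by
    intro z hz
    obtain ⟨σ, hσ, hz⟩ := Finset.mem_biUnion.1 hz
    obtain ⟨hz1, hz2⟩ := Finset.mem_filter.1 hz
    refine hP (N σ) (hNL σ hσ) ?_
    refine Finset.mem_filter.2 ⟨hz1, ?_⟩
    have := (hN σ hσ)
    rw [← this.1, hz2]
    exact this.2.1
  have hdisj : ∀ σ ∈ S, ∀ τ ∈ S, N σ ≤ N τ → ∀ z, z ∈ D σ → z ∈ D τ → σ = τ := by
    intro σ hσ τ hτ hle z hz1 hz2
    obtain ⟨-, hz1⟩ := Finset.mem_filter.1 hz1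
    obtain ⟨-, hz2⟩ := Finset.mem_filter.1 hz2
    have h1 := hN σ hσ
    have h2 := hN τ hτ
    rcases Nat.lt_or_eq_of_le hle with h | h
    · exfalso
      have h3 := h2.2.2 (N σ) h
      have hl : σ.length ≤ τ.length := by
        rw [h1.1, h2.1]; exact path_mono hp _ _ hle
      rw [← h1.1, ← h2.1, ← hz2, Nat.div_div_eq_div_mul, ← pow_add] at h3
      have e : m - τ.length + (τ.length - σ.length) = m - σ.length := by
        have := hlen τ hτ
        omega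
      rw [e, hz1, h1.2.1] at h3
      exact Bool.noConfusion h3
    · apply node_inj
      rw [← hz1, ← hz2, h1.1, h2.1, h]
  have hcard : (S.biUnion D).card = ∑ σ ∈ S, 2 ^ (m - σ.length) := by
    rw [Finset.card_biUnion]
    · exact Finset.sum_congr rfl hDc
    · intro σ hσ τ hτ hne
      refine Finset.disjoint_left.2 ?_
      intro z hz1 hz2
      rcases le_total (N σ) (N τ) with h | h
      · exact hne (hdisj σ hσ τ hτ h z hz1 hz2)
      · exact hne (hdisj τ hτ σ hσ h z hz2 hz1).symm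
  have h1 : ((∑ σ ∈ S, 2 ^ (m - σ.length) : ℕ) : ℝ) ≤ 3 * 2 ^ m / 2 ^ d := by
    rw [← hcard]
    refine le_trans ?_ hPc
    exact_mod_cast Finset.card_le_card hsub
  have h2 : (2:ℝ) ^ m * ∑ σ ∈ S, ((1:ℝ)/2) ^ σ.length = ((∑ σ ∈ S, 2 ^ (m - σ.length) : ℕ) : ℝ) := by
    push_cast
    rw [Finset.mul_sum]
    refine Finset.sum_congr rfl fun σ hσ => ?_
    have e : (2:ℝ) ^ (m - σ.length) * 2 ^ σ.length = 2 ^ m := by
      rw [← pow_add, Nat.sub_add_cancel (hlen σ hσ)]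
    rw [← e, mul_assoc, ← mul_pow]
    norm_num
  have h3 : (2:ℝ) ^ m * ∑ σ ∈ S, ((1:ℝ)/2) ^ σ.length ≤ 2 ^ m * (3 / 2 ^ d) := by
    rw [h2]
    refine h1.trans (le_of_eq ?_)
    ring
  exact le_of_mul_le_mul_left h3 (by positivity)

theorem sel_bound {Ap : ℕ → ℕ → ℕ → Prop} {d : ℕ} {p : ℕ → ℕ}
    (hp : IsPath Ap d p) (sel : ℕ → ℕ) (hs : sel = tu ∨ sel = tv) :
    ∀ L, ∃ P : Finset ℕ, (∀ i ≤ L, Us sel p i (tM (p L)) ⊆ P) ∧
      (P.card : ℝ) ≤ 3 * 2 ^ tM (p L) / 2 ^ d := by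
  intro L
  obtain ⟨B, hB⟩ := (hp L).1 (tM (p L))
  have := union_bound rfl hB
  rcases hs with rfl | rfl
  · exact this.1
  · exact this.2

theorem out_bound' {Ap : ℕ → ℕ → ℕ → Prop} {d : ℕ} {p : ℕ → ℕ}
    (hp : IsPath Ap d p) (sel : ℕ → ℕ) (hs : sel = tu ∨ sel = tv)
    (S : Finset (List Bool)) (hS : ∀ σ ∈ S, ∃ n, Out sel n p σ.length (node σ)) :
    ∑ σ ∈ S, ((1:ℝ)/2) ^ σ.length ≤ 3 / 2 ^ d :=
  out_bound hp sel (sel_bound hp sel hs) S hS

theorem exists_out {Ap : ℕ → ℕ → ℕ → Prop} {d : ℕ} {p : ℕ → ℕ} (hp : IsPath Ap d p)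
    (sel : ℕ → ℕ) (X : ℕ → Bool) (N : ℕ)
    (h : (sel (p N)).testBit (nd X (tM (p N))) = true) :
    ∃ n, Out sel n p (tM (p n)) (nd X (tM (p n))) := by
  classical
  have hne : ∃ n, (sel (p n)).testBit (nd X (tM (p n))) = true := ⟨N, h⟩
  refine ⟨Nat.find hne, rfl, Nat.find_spec hne, fun j hj => ?_⟩
  have h1 := Nat.find_min hne hj
  rw [nd_div' X (path_mono hp _ _ hj.le)]
  simpa using h1

theorem exists_cover {Ap : ℕ → ℕ → ℕ → Prop} (hAp : ∀ d s x, Ap d s x → Ap d (s + 1) x)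
    {d : ℕ} {p : ℕ → ℕ} (hp : IsPath Ap d p) (X Y : ℕ → Bool) (N : ℕ)
    (hXY : ∀ n ≥ N, (∃ s, Ap d s (nd X n)) ∨ (∃ s, Ap d s (nd Y n))) :
    (∃ n, Out tu n p (tM (p n)) (nd X (tM (p n)))) ∨
      (∃ n, Out tv n p (tM (p n)) (nd Y (tM (p n)))) := by
  obtain ⟨B, hB⟩ := good_lim hAp (hp N).1
  have hAp' : ∀ s k x, Ap d s x → Ap d (s + k) x := by
    intro s k x h
    induction k with
    | zero => exact h
    | succ k ih => exact hAp _ _ _ ih
  have hin : ∀ x, (∃ s, Ap d s x) → B x = true := by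
    rintro x ⟨s, hs⟩
    refine (hB (s + x)).1.1.1 x ?_ (hAp' s x x hs)
    calc x < 2 ^ x := Nat.lt_two_pow_self
      _ ≤ 2 ^ (s + x + 1) := Nat.pow_le_pow_right (by norm_num) (by omega)
  set M := tM (p N) with hM
  have hcov := cov_iff.1 ((hB M).1.2.2.1 le_rfl) (nd X M) (nd_mem_lev X M) (nd Y M)
    (nd_mem_lev Y M) (by
      intro j hj
      have hj' : j ≤ M := by omega
      have e1 := nd_div' X (Nat.sub_le M j)
      have e2 := nd_div' Y (Nat.sub_le M j)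
      rw [Nat.sub_sub_self hj'] at e1 e2
      rw [e1, e2]
      rcases hXY (M - j) (by omega) with h | h
      · exact Or.inl (hin _ h)
      · exact Or.inr (hin _ h))
  rcases hcov with h | h
  · exact Or.inl (exists_out hp tu X N h)
  · exact Or.inr (exists_out hp tv Y N h)

end Pool.Agent.Run7.h57.TR
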