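import Pool.Agent.Run7.h57.TR.Defs

/-!
# The forcing conditions and the canonical path
-/

set_option autoImplicit false

namespace Pool.Agent.Run7.h57.TR

/-- level of a condition -/
def tM (t : ℕ) : ℕ := t.unpair.1
/-- left set of a condition -/
def tu (t : ℕ) : ℕ := t.unpair.2.unpair.1
/-- right set of a condition -/
def tv (t : ℕ) : ℕ := t.unpair.2.unpair.2

/-- Number of nodes in the cover coded by `t`. -/
def tc (t : ℕ) : ℕ := cnt (tu t).testBit (tM t) + cnt (tv t).testBit (tM t)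

/-- No level-`m` cover is smaller than `a / 2^M` by more than `2^{-(d+i+1)}`. -/
def Opt (d i M a m : ℕ) (B : ℕ → Bool) : Prop :=
  ∀ u' v' : ℕ → Bool, Cov i m B u' v' →
    a * 2 ^ m * 2 ^ (d + i + 1) ≤ (cnt u' m + cnt v' m) * 2 ^ M * 2 ^ (d + i + 1) + 2 ^ m * 2 ^ M

/-- The condition `t` at index `i`, level-`m` form. -/
def Con (d i t m : ℕ) (B : ℕ → Bool) : Prop :=
  (tM t ≤ m → Cov i (tM t) B (tu t).testBit (tv t).testBit) ∧ Opt d i (tM t) (tc t) m B

/-- `B` contains the enumerated set and is small. -/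
def Base (Ap : ℕ → ℕ → ℕ → Prop) (d m : ℕ) (B : ℕ → Bool) : Prop :=
  (∀ x < 2 ^ (m + 1), Ap d m x → B x = true) ∧ ∀ n < m + 1, cnt B n * 2 ^ d ≤ 2 ^ n

/-- The level-`m` requirement for the history `g 0, …, g (n-1), t`. -/
def Q (Ap : ℕ → ℕ → ℕ → Prop) (d n : ℕ) (g : ℕ → ℕ) (t m : ℕ) (B : ℕ → Bool) : Prop :=
  (Base Ap d m B ∧ (∀ j < n, Con d j (g j) m B) ∧ Con d n t m B) ∧
    n ≤ tM t ∧ ∀ j < n, tM (g j) ≤ tM t

/-- The history `g 0, …, g (n-1), t` is good. -/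
def Good (Ap : ℕ → ℕ → ℕ → Prop) (d n : ℕ) (g : ℕ → ℕ) (t : ℕ) : Prop :=
  ∀ m, ∃ B, Q Ap d n g t m B

theorem base_congr {Ap : ℕ → ℕ → ℕ → Prop} {d m : ℕ} {B B' : ℕ → Bool}
    (h : ∀ x < 2 ^ (m + 1), B x = B' x) (hB : Base Ap d m B) : Base Ap d m B' := by
  refine ⟨fun x hx ha => ?_, fun n hn => ?_⟩
  · rw [← h x hx]; exact hB.1 x hx ha
  · rw [← cnt_congr (B := B)]
    · exact hB.2 n hn
    · intro x hx
      refine h x (lt_of_lt_of_le hx (Nat.pow_le_pow_right (by norm_num) (by omega)))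

theorem opt_congr {d i M a m : ℕ} {B B' : ℕ → Bool}
    (h : ∀ x < 2 ^ (m + 1), B x = B' x) (hB : Opt d i M a m B) : Opt d i M a m B' := by
  intro u' v' hc
  exact hB u' v' (cov_congr (fun x hx => (h x hx).symm) (fun _ _ => rfl) (fun _ _ => rfl) hc)

theorem con_congr {d i t m : ℕ} {B B' : ℕ → Bool}
    (h : ∀ x < 2 ^ (m + 1), B x = B' x) (hB : Con d i t m B) : Con d i t m B' := by
  refine ⟨fun hM => ?_, opt_congr h hB.2⟩
  refine cov_congr (fun x hx => h x ?_) (fun _ _ => rfl) (fun _ _ => rfl) (hB.1 hM)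
  exact lt_of_lt_of_le hx (Nat.pow_le_pow_right (by norm_num) (by omega))

theorem q_congr {Ap : ℕ → ℕ → ℕ → Prop} {d n : ℕ} {g : ℕ → ℕ} {t m : ℕ} {B B' : ℕ → Bool}
    (h : ∀ x < 2 ^ (m + 1), B x = B' x) (hB : Q Ap d n g t m B) : Q Ap d n g t m B' :=
  ⟨⟨base_congr h hB.1.1, fun j hj => con_congr h (hB.1.2.1 j hj), con_congr h hB.1.2.2⟩, hB.2⟩

theorem q_hist {Ap : ℕ → ℕ → ℕ → Prop} {d n : ℕ} {g g' : ℕ → ℕ} {t m : ℕ} {B : ℕ → Bool}
    (h : ∀ j < n, g j = g' j) (hB : Q Ap d n g t m B) : Q Ap d n g' t m B :=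
  ⟨⟨hB.1.1, fun j hj => by rw [← h j hj]; exact hB.1.2.1 j hj, hB.1.2.2⟩, hB.2.1,
    fun j hj => by rw [← h j hj]; exact hB.2.2 j hj⟩

theorem good_hist {Ap : ℕ → ℕ → ℕ → Prop} {d n : ℕ} {g g' : ℕ → ℕ} {t : ℕ}
    (h : ∀ j < n, g j = g' j) (hB : Good Ap d n g t) : Good Ap d n g' t := fun m =>
  (hB m).imp fun _ hb => q_hist h hb

section mono

variable {Ap : ℕ → ℕ → ℕ → Prop} (hAp : ∀ d s x, Ap d s x → Ap d (s + 1) x)

theorem opt_down {d i M a m : ℕ} {B : ℕ → Bool} (h : Opt d i M a (m + 1) B) :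
    Opt d i M a m B := by
  intro u' v' hc
  have := h _ _ (cov_lift (k := 1) hc)
  rw [cnt_lift_one, cnt_lift_one] at this
  have e : (2:ℕ) ^ (m + 1) = 2 * 2 ^ m := by ring
  rw [e] at this
  have e1 : a * (2 * 2 ^ m) * 2 ^ (d + i + 1) = 2 * (a * 2 ^ m * 2 ^ (d + i + 1)) := by ring
  have e2 : (2 * cnt u' m + 2 * cnt v' m) * 2 ^ M * 2 ^ (d + i + 1) + 2 * 2 ^ m * 2 ^ M
      = 2 * ((cnt u' m + cnt v' m) * 2 ^ M * 2 ^ (d + i + 1) + 2 ^ m * 2 ^ M) := by ring
  rw [e1, e2] at this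
  exact Nat.le_of_mul_le_mul_left this (by norm_num)

theorem con_down {d i t m : ℕ} {B : ℕ → Bool} (h : Con d i t (m + 1) B) : Con d i t m B :=
  ⟨fun hM => h.1 (by omega), opt_down h.2⟩

include hAp in
theorem base_down {d m : ℕ} {B : ℕ → Bool} (h : Base Ap d (m + 1) B) : Base Ap d m B := by
  refine ⟨fun x hx ha => h.1 x ?_ (hAp _ _ _ ha), fun n hn => h.2 n (by omega)⟩
  exact lt_of_lt_of_le hx (Nat.pow_le_pow_right (by norm_num) (by omega))

include hAp in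
theorem q_down {d n : ℕ} {g : ℕ → ℕ} {t m : ℕ} {B : ℕ → Bool} (h : Q Ap d n g t (m + 1) B) :
    Q Ap d n g t m B :=
  ⟨⟨base_down hAp h.1.1, fun j hj => con_down (h.1.2.1 j hj), con_down h.1.2.2⟩, h.2⟩

include hAp in
theorem q_down' {d n : ℕ} {g : ℕ → ℕ} {t m m' : ℕ} {B : ℕ → Bool} (hm : m ≤ m')
    (h : Q Ap d n g t m' B) : Q Ap d n g t m B := by
  obtain ⟨k, rfl⟩ := Nat.exists_eq_add_of_le hm
  clear hm
  induction k with
  | zero => exact h
  | succ k ih => exact ih (q_down hAp h)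

end mono

/-- A property which depends on finitely many coordinates only defines a closed set. -/
theorem isClosed_of_dep (K : ℕ) (P : (ℕ → Bool) → Prop)
    (hP : ∀ B B' : ℕ → Bool, (∀ x < K, B x = B' x) → P B → P B') : IsClosed {B | P B} := by
  let r : (ℕ → Bool) → (Fin K → Bool) := fun B i => B i
  have hr : Continuous r := continuous_pi fun i => continuous_apply _
  have he : {B | P B} = r ⁻¹' (r '' {B | P B}) := by
    ext B
    constructor
    · intro h; exact ⟨B, h, rfl⟩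
    · rintro ⟨B', h, hB⟩
      refine hP B' B (fun x hx => ?_) h
      exact congrFun hB ⟨x, hx⟩
  rw [he]
  exact (isClosed_discrete _).preimage hr

theorem good_lim {Ap : ℕ → ℕ → ℕ → Prop} (hAp : ∀ d s x, Ap d s x → Ap d (s + 1) x)
    {d n : ℕ} {g : ℕ → ℕ} {t : ℕ} (h : Good Ap d n g t) : ∃ B, ∀ m, Q Ap d n g t m B := by
  have hcl : ∀ m, IsClosed {B | Q Ap d n g t m B} := fun m =>
    isClosed_of_dep (2 ^ (m + 1)) _ fun B B' hB hq => q_congr hB hq
  have := IsCompact.nonempty_iInter_of_sequence_nonempty_isCompact_isClosed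
    (fun m => {B | Q Ap d n g t m B}) (fun m B hB => q_down hAp hB) (fun m => h m)
    (hcl 0).isCompact hcl
  obtain ⟨B, hB⟩ := this
  refine ⟨B, fun m => ?_⟩
  exact Set.mem_iInter.1 hB m

/-- The history `g 0, …, g (n-1)` has an infinite model. -/
def Lim (Ap : ℕ → ℕ → ℕ → Prop) (d n : ℕ) (g : ℕ → ℕ) : Prop :=
  ∃ B, ∀ m, Base Ap d m B ∧ ∀ j < n, Con d j (g j) m B

/-- There is a nearly minimum cover of level at least `M0`. -/
theorem exists_opt (d n M0 : ℕ) (B : ℕ → Bool) :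
    ∃ M u v, M0 ≤ M ∧ Cov n M B u v ∧ ∀ m, Opt d n M (cnt u M + cnt v M) m B := by
  classical
  have hne : ∃ q : ℕ, ∃ M u v, M0 ≤ M ∧ Cov n M B u v ∧
      q = ((cnt u M + cnt v M) * 2 ^ (d + n + 1)) / 2 ^ M :=
    ⟨_, M0, fun _ => true, fun _ => true, le_rfl, fun _ _ _ _ _ => Or.inl rfl, rfl⟩
  obtain ⟨M, u, v, hM, hc, hq⟩ := Nat.find_spec hne
  refine ⟨M, u, v, hM, hc, fun m u' v' hc' => ?_⟩
  have hmin := Nat.find_min' hne ⟨m + M0, lift M0 u', lift M0 v', by omega, cov_lift hc', rfl⟩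
  rw [hq, cnt_lift, cnt_lift] at hmin
  set a := cnt u M + cnt v M
  set a' := cnt u' m + cnt v' m
  set K := 2 ^ (d + n + 1)
  have e1 : (2 ^ M0 * cnt u' m + 2 ^ M0 * cnt v' m) * K / 2 ^ (m + M0) = a' * K / 2 ^ m := by
    have : (2 ^ M0 * cnt u' m + 2 ^ M0 * cnt v' m) * K = 2 ^ M0 * (a' * K) := by ring
    rw [this, pow_add, mul_comm (2 ^ m) (2 ^ M0)]
    exact Nat.mul_div_mul_left _ _ (by positivity)
  rw [e1] at hmin
  have h1 : a * K < 2 ^ M * (a * K / 2 ^ M + 1) := Nat.lt_mul_div_succ _ (by positivity)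
  have h2 : 2 ^ m * (a' * K / 2 ^ m) ≤ a' * K := Nat.mul_div_le _ _
  have h3 : 2 ^ M * (a * K / 2 ^ M + 1) ≤ 2 ^ M * (a' * K / 2 ^ m + 1) :=
    Nat.mul_le_mul_left _ (by omega)
  calc a * 2 ^ m * K = 2 ^ m * (a * K) := by ring
    _ ≤ 2 ^ m * (2 ^ M * (a' * K / 2 ^ m + 1)) := Nat.mul_le_mul_left _ (by omega)
    _ = 2 ^ M * (2 ^ m * (a' * K / 2 ^ m)) + 2 ^ m * 2 ^ M := by ring
    _ ≤ 2 ^ M * (a' * K) + 2 ^ m * 2 ^ M := by
        have := Nat.mul_le_mul_left (2 ^ M) h2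
        omega
    _ = a' * 2 ^ M * K + 2 ^ m * 2 ^ M := by ring

theorem lim_extend {Ap : ℕ → ℕ → ℕ → Prop} {d n : ℕ} {g : ℕ → ℕ} (h : Lim Ap d n g) :
    ∃ t, Good Ap d n g t := by
  obtain ⟨B, hB⟩ := h
  obtain ⟨M, u, v, hM, hc, ho⟩ := exists_opt d n (n + ∑ j ∈ Finset.range n, tM (g j)) B
  obtain ⟨cu, -, hu⟩ := exists_code (2 ^ (M + 1)) u
  obtain ⟨cv, -, hv⟩ := exists_code (2 ^ (M + 1)) v
  refine ⟨Nat.pair M (Nat.pair cu cv), fun m => ⟨B, ⟨(hB m).1, (hB m).2, ?_⟩, ?_, ?_⟩⟩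
  · have e1 : tM (Nat.pair M (Nat.pair cu cv)) = M := by simp [tM]
    have e2 : tu (Nat.pair M (Nat.pair cu cv)) = cu := by simp [tu]
    have e3 : tv (Nat.pair M (Nat.pair cu cv)) = cv := by simp [tv]
    refine ⟨fun _ => ?_, ?_⟩
    · rw [e1, e2, e3]
      exact cov_congr (fun _ _ => rfl) (fun x hx => (hu x hx).symm) (fun x hx => (hv x hx).symm) hc
    · have : tc (Nat.pair M (Nat.pair cu cv)) = cnt u M + cnt v M := by
        rw [tc, e1, e2, e3, cnt_congr hu, cnt_congr hv]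
      rw [this, e1]
      exact ho m
  · have e1 : tM (Nat.pair M (Nat.pair cu cv)) = M := by simp [tM]
    rw [e1]; omega
  · intro j hj
    have e1 : tM (Nat.pair M (Nat.pair cu cv)) = M := by simp [tM]
    rw [e1]
    have := Finset.single_le_sum (f := fun j => tM (g j)) (fun _ _ => Nat.zero_le _)
      (Finset.mem_range.2 hj)
    omega

theorem good_lim_succ {Ap : ℕ → ℕ → ℕ → Prop} (hAp : ∀ d s x, Ap d s x → Ap d (s + 1) x)
    {d n : ℕ} {g : ℕ → ℕ} (h : Good Ap d n g (g n)) : Lim Ap d (n + 1) g := by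
  obtain ⟨B, hB⟩ := good_lim hAp h
  refine ⟨B, fun m => ⟨(hB m).1.1, fun j hj => ?_⟩⟩
  rcases Nat.lt_succ_iff_lt_or_eq.1 hj with h | h
  · exact (hB m).1.2.1 j h
  · subst h; exact (hB m).1.2.2

/-- `p` is the canonical path. -/
def IsPath (Ap : ℕ → ℕ → ℕ → Prop) (d : ℕ) (p : ℕ → ℕ) : Prop :=
  ∀ n, Good Ap d n p (p n) ∧ ∀ t < p n, ¬ Good Ap d n p t

theorem exists_path {Ap : ℕ → ℕ → ℕ → Prop} (hAp : ∀ d s x, Ap d s x → Ap d (s + 1) x)
    {d : ℕ} (h0 : ∃ B, ∀ m, Base Ap d m B) : ∃ p, IsPath Ap d p := by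
  classical
  -- histories as lists
  let nxt : List ℕ → ℕ := fun l => sInf {t | Good Ap d l.length (fun j => l.getD j 0) t}
  let H : ℕ → List ℕ := fun n => Nat.rec [] (fun _ l => l ++ [nxt l]) n
  have hH0 : H 0 = [] := rfl
  have hHs : ∀ n, H (n + 1) = H n ++ [nxt (H n)] := fun n => rfl
  have hlen : ∀ n, (H n).length = n := by
    intro n
    induction n with
    | zero => rfl
    | succ n ih => rw [hHs, List.length_append, ih]; rfl
  let p : ℕ → ℕ := fun n => nxt (H n)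
  have hget : ∀ n, ∀ j < n, (H n).getD j 0 = p j := by
    intro n
    induction n with
    | zero => intro j hj; omega
    | succ n ih =>
      intro j hj
      rw [hHs]
      rcases Nat.lt_succ_iff_lt_or_eq.1 hj with h | h
      · rw [List.getD_append _ _ _ _ (by rw [hlen]; exact h)]
        exact ih j h
      · subst h
        rw [List.getD_append_right _ _ _ _ (by rw [hlen]), hlen]
        simp [p]
  have hset : ∀ n, {t | Good Ap d (H n).length (fun j => (H n).getD j 0) t}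
      = {t | Good Ap d n p t} := by
    intro n
    ext t
    change Good Ap d (H n).length (fun j => (H n).getD j 0) t ↔ Good Ap d n p t
    rw [hlen]
    constructor
    · intro h; exact good_hist (fun j hj => hget n j hj) h
    · intro h; exact good_hist (fun j hj => (hget n j hj).symm) h
  have hp : ∀ n, p n = sInf {t | Good Ap d n p t} := by
    intro n
    change sInf {t | Good Ap d (H n).length (fun j => (H n).getD j 0) t} = _
    rw [hset]
  have hgood : ∀ n, Lim Ap d n p → Good Ap d n p (p n) := by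
    intro n hn
    have hmem := Nat.sInf_mem (s := {t | Good Ap d n p t}) (lim_extend hn)
    rw [← hp] at hmem
    exact hmem
  have hlim : ∀ n, Lim Ap d n p := by
    intro n
    induction n with
    | zero =>
      obtain ⟨B, hB⟩ := h0
      exact ⟨B, fun m => ⟨hB m, fun j hj => by omega⟩⟩
    | succ n ih => exact good_lim_succ hAp (hgood n ih)
  refine ⟨p, fun n => ⟨hgood n (hlim n), fun t ht hg => ?_⟩⟩
  rw [hp] at ht
  exact Nat.notMem_of_lt_sInf ht hg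

end Pool.Agent.Run7.h57.TR
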