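import Pool.Agent.Run7.h57.TR.Comp

/-!
# The Martin-Löf tests relative to the halting problem
-/

set_option autoImplicit false

namespace Pool.Agent.Run7.h57.TR

theorem pr_node : Primrec node := by
  have h1 : Primrec (fun b : Bool => b.toNat) := Primrec.dom_finite _
  have h2 : Primrec (fun z : List Bool × (ℕ × Bool) => 2 * z.2.1 + z.2.2.toNat) :=
    pr_add (pr_mul (Primrec.const 2) (Primrec.fst.comp Primrec.snd))
      (h1.comp (Primrec.snd.comp Primrec.snd))
  have h3 : Primrec₂ (fun (_ : List Bool) (q : ℕ × Bool) => 2 * q.1 + q.2.toNat) := h2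
  exact Primrec.list_foldl (f := fun σ : List Bool => σ) (g := fun _ => 1)
    (h := fun (_ : List Bool) (q : ℕ × Bool) => 2 * q.1 + q.2.toNat)
    Primrec.id (Primrec.const 1) h3

/-- Decoding of the witness of the outer quantifier. -/
def dec (a : ℕ) : ℕ × ℕ × ℕ × List ℕ :=
  (Encodable.decode (α := ℕ × ℕ × ℕ × List ℕ) a).getD (0, 0, 0, [])

theorem pr_dec : Primrec dec :=
  Primrec.option_getD.comp Primrec.decode (Primrec.const (0, 0, 0, ([] : List ℕ)))

theorem dec_encode (q : ℕ × ℕ × ℕ × List ℕ) : dec (Encodable.encode q) = q := by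
  unfold dec
  rw [Encodable.encodek]
  rfl

theorem out_congr {sel : ℕ → ℕ} {n l x : ℕ} {g g' : ℕ → ℕ} (h : ∀ j < n + 1, g j = g' j)
    (ho : Out sel n g l x) : Out sel n g' l x := by
  refine ⟨?_, ?_, ?_⟩
  · rw [← h n (by omega)]; exact ho.1
  · rw [← h n (by omega)]; exact ho.2.1
  · intro j hj
    rw [← h n (by omega), ← h j (by omega)]
    exact ho.2.2 j hj

/-- The matrix of the test. -/
def TestP (Ap : ℕ → ℕ → ℕ → Prop) (sel : ℕ → ℕ) (k : ℕ) (σ : List Bool) (q : ℕ × ℕ × ℕ × List ℕ)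
    (b : ℕ) : Prop :=
  (k + 3 ≤ q.1 ∧
    (∀ i < q.2.2.1 + 1, Feas Ap q.1 i (fun j => q.2.2.2.getD j 0) (q.2.2.2.getD i 0) b)) ∧
  ((∀ i < q.2.2.1 + 1, ∀ t < q.2.2.2.getD i 0,
      ¬ Feas Ap q.1 i (fun j => q.2.2.2.getD j 0) t q.2.1) ∧
    Out sel q.2.2.1 (fun j => q.2.2.2.getD j 0) σ.length (node σ))

theorem pp_out {α : Type*} [Primcodable α] {sel : ℕ → ℕ} (hs : Primrec sel) {n l x : α → ℕ}
    {h : α → List ℕ} (hn : Primrec n) (hh : Primrec h) (hl : Primrec l) (hx : Primrec x) :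
    PrimrecPred (fun a => Out sel (n a) (fun j => (h a).getD j 0) (l a) (x a)) := by
  unfold Out
  refine PrimrecPred.and (pp_eq hl (pr_tM (pr_getD hh hn))) (PrimrecPred.and
    (pp_bit (hs.comp (pr_getD hh hn)) hx) ?_)
  refine pp_all (P := fun a j => (sel ((h a).getD j 0)).testBit
    (x a / 2 ^ (tM ((h a).getD (n a) 0) - tM ((h a).getD j 0))) = false) hn ?_
  have h1 : PrimrecPred (fun p : α × ℕ => (sel ((h p.1).getD p.2 0)).testBit
    (x p.1 / 2 ^ (tM ((h p.1).getD (n p.1) 0) - tM ((h p.1).getD p.2 0))) = true) :=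
    pp_bit (hs.comp (pr_getD (hh.comp Primrec.fst) Primrec.snd))
      (pr_div (hx.comp Primrec.fst) (pr_pow (pr_sub
        (pr_tM (pr_getD (hh.comp Primrec.fst) (hn.comp Primrec.fst)))
        (pr_tM (pr_getD (hh.comp Primrec.fst) Primrec.snd)))))
  exact h1.not.of_eq fun p => by simp

theorem pp_test {Ap : ℕ → ℕ → ℕ → Prop}
    (hAp : PrimrecPred (fun p : ℕ × ℕ × ℕ => Ap p.1 p.2.1 p.2.2)) {sel : ℕ → ℕ}
    (hs : Primrec sel) :
    PrimrecPred (fun z : ℕ × List Bool × ℕ × ℕ => TestP Ap sel z.1 z.2.1 (dec z.2.2.1) z.2.2.2) := by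
  have hk : Primrec (fun z : ℕ × List Bool × ℕ × ℕ => z.1) := Primrec.fst
  have hσ : Primrec (fun z : ℕ × List Bool × ℕ × ℕ => z.2.1) := Primrec.fst.comp Primrec.snd
  have hq : Primrec (fun z : ℕ × List Bool × ℕ × ℕ => dec z.2.2.1) :=
    pr_dec.comp (Primrec.fst.comp (Primrec.snd.comp Primrec.snd))
  have hb : Primrec (fun z : ℕ × List Bool × ℕ × ℕ => z.2.2.2) :=
    Primrec.snd.comp (Primrec.snd.comp Primrec.snd)
  have hd : Primrec (fun z : ℕ × List Bool × ℕ × ℕ => (dec z.2.2.1).1) := Primrec.fst.comp hq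
  have hw : Primrec (fun z : ℕ × List Bool × ℕ × ℕ => (dec z.2.2.1).2.1) :=
    Primrec.fst.comp (Primrec.snd.comp hq)
  have hn : Primrec (fun z : ℕ × List Bool × ℕ × ℕ => (dec z.2.2.1).2.2.1) :=
    Primrec.fst.comp (Primrec.snd.comp (Primrec.snd.comp hq))
  have hh : Primrec (fun z : ℕ × List Bool × ℕ × ℕ => (dec z.2.2.1).2.2.2) :=
    Primrec.snd.comp (Primrec.snd.comp (Primrec.snd.comp hq))
  unfold TestP
  refine PrimrecPred.and (PrimrecPred.and (pp_le (pr_add hk (Primrec.const 3)) hd) ?_)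
    (PrimrecPred.and ?_ (pp_out hs hn hh (Primrec.list_length.comp hσ) (pr_node.comp hσ)))
  · refine pp_all (P := fun (z : ℕ × List Bool × ℕ × ℕ) i => Feas Ap (dec z.2.2.1).1 i
      (fun j => (dec z.2.2.1).2.2.2.getD j 0) ((dec z.2.2.1).2.2.2.getD i 0) z.2.2.2)
      (pr_succ hn) ?_
    exact pp_feas hAp (hd.comp Primrec.fst) Primrec.snd (hh.comp Primrec.fst)
      (pr_getD (hh.comp Primrec.fst) Primrec.snd) (hb.comp Primrec.fst)
  · refine pp_all (P := fun (z : ℕ × List Bool × ℕ × ℕ) i => ∀ t < (dec z.2.2.1).2.2.2.getD i 0,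
      ¬ Feas Ap (dec z.2.2.1).1 i (fun j => (dec z.2.2.1).2.2.2.getD j 0) t (dec z.2.2.1).2.1)
      (pr_succ hn) ?_
    refine pp_all (P := fun (p : (ℕ × List Bool × ℕ × ℕ) × ℕ) t =>
      ¬ Feas Ap (dec p.1.2.2.1).1 p.2 (fun j => (dec p.1.2.2.1).2.2.2.getD j 0) t
        (dec p.1.2.2.1).2.1) (pr_getD (hh.comp Primrec.fst) Primrec.snd) ?_
    have f1 : Primrec (fun q : ((ℕ × List Bool × ℕ × ℕ) × ℕ) × ℕ => q.1.1) :=
      Primrec.fst.comp Primrec.fst
    exact (pp_feas hAp (hd.comp f1) (Primrec.snd.comp Primrec.fst) (hh.comp f1) Primrec.snd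
      (hw.comp f1)).not

section
variable {Ap : ℕ → ℕ → ℕ → Prop} (hAp : ∀ d s x, Ap d s x → Ap d (s + 1) x)

include hAp in
theorem feas_anti {d n : ℕ} {g : ℕ → ℕ} {t m m' : ℕ} (hm : m ≤ m') (h : Feas Ap d n g t m') :
    Feas Ap d n g t m := h.imp fun _ hb => q_down' hAp hm hb

theorem test_sound {sel : ℕ → ℕ} {k : ℕ} {σ : List Bool} {q : ℕ × ℕ × ℕ × List ℕ}
    (h : ∀ b, TestP Ap sel k σ q b) {p : ℕ → ℕ} (hp : IsPath Ap q.1 p) :
    Out sel q.2.2.1 p σ.length (node σ) := by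
  obtain ⟨d, w, n, l⟩ := q
  simp only at hp ⊢
  have hg : ∀ i < n + 1, Good Ap d i (fun j => l.getD j 0) (l.getD i 0) := fun i hi b =>
    (h b).1.2 i hi
  have hmin := (h 0).2.1
  have hout := (h 0).2.2
  simp only at hmin hout
  have heq : ∀ i, i < n + 1 → l.getD i 0 = p i := by
    intro i
    induction i using Nat.strong_induction_on with
    | _ i ih =>
      intro hi
      have hj : ∀ j < i, l.getD j 0 = p j := fun j hj => ih j hj (by omega)
      have h1 : Good Ap d i p (l.getD i 0) := good_hist hj (hg i hi)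
      rcases Nat.lt_trichotomy (l.getD i 0) (p i) with hlt | he | hlt
      · exact absurd h1 ((hp i).2 _ hlt)
      · exact he
      · exfalso
        have h2 : Good Ap d i (fun j => l.getD j 0) (p i) :=
          good_hist (fun j hj' => (hj j hj').symm) (hp i).1
        exact hmin i hi (p i) hlt (h2 w)
  exact out_congr (fun j hj => heq j hj) hout

include hAp in
theorem test_complete {sel : ℕ → ℕ} {d k n : ℕ} (hk : k + 3 ≤ d) {σ : List Bool} {p : ℕ → ℕ}
    (hp : IsPath Ap d p) (ho : Out sel n p σ.length (node σ)) :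
    ∃ q, ∀ b, TestP Ap sel k σ q b := by
  classical
  have hget : ∀ i < n + 1, ((List.range (n + 1)).map p).getD i 0 = p i := by
    intro i hi
    rw [List.getD_eq_getElem?_getD]
    simp [hi]
  have hw : ∃ w, ∀ i ∈ Finset.range (n + 1), ∀ t ∈ Finset.range (p i), ¬ Feas Ap d i p t w := by
    have : ∀ᶠ w in Filter.atTop, ∀ i ∈ Finset.range (n + 1), ∀ t ∈ Finset.range (p i),
        ¬ Feas Ap d i p t w := by
      rw [Filter.eventually_all_finset]
      intro i _
      rw [Filter.eventually_all_finset]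
      intro t ht
      have h1 := (hp i).2 t (Finset.mem_range.1 ht)
      unfold Good at h1
      push Not at h1
      obtain ⟨m, hm⟩ := h1
      refine Filter.eventually_atTop.2 ⟨m, fun w hw hf => ?_⟩
      obtain ⟨B, hB⟩ := feas_anti hAp hw hf
      exact hm B hB
    exact this.exists
  obtain ⟨w, hw⟩ := hw
  refine ⟨(d, w, n, (List.range (n + 1)).map p), fun b => ⟨⟨hk, ?_⟩, ?_, ?_⟩⟩
  · intro i hi
    simp only at hi ⊢
    rw [hget i hi]
    have h1 := (hp i).1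
    have h2 : Good Ap d i (fun j => ((List.range (n + 1)).map p).getD j 0) (p i) :=
      good_hist (fun j hj => (hget j (by omega)).symm) h1
    exact h2 b
  · intro i hi t ht
    simp only at hi ht ⊢
    rw [hget i hi] at ht
    intro hf
    refine hw i (Finset.mem_range.2 hi) t (Finset.mem_range.2 ht) ?_
    obtain ⟨B, hB⟩ := hf
    exact ⟨B, q_hist (fun j hj => hget j (by omega)) hB⟩
  · exact out_congr (fun j hj => (hget j hj).symm) ho

end

theorem sum_tail (a : ℕ) : ∀ D, ∑ d ∈ Finset.Ico a (a + D), (3 : ℝ) / 2 ^ d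
    = 6 / 2 ^ a - 6 / 2 ^ (a + D) := by
  intro D
  induction D with
  | zero => simp
  | succ D ih =>
    rw [← add_assoc, Finset.sum_Ico_succ_top (by omega), ih, pow_succ]
    have : (2:ℝ) ^ (a + D) ≠ 0 := by positivity
    field_simp
    ring

/-- The test. -/
theorem exists_test {Ap : ℕ → ℕ → ℕ → Prop} (hAp : ∀ d s x, Ap d s x → Ap d (s + 1) x)
    (hApp : PrimrecPred (fun p : ℕ × ℕ × ℕ => Ap p.1 p.2.1 p.2.2))
    (P : ℕ → ℕ → ℕ) (hP : ∀ d, IsPath Ap d (P d))
    (sel : ℕ → ℕ) (hsp : Primrec sel) (hs : sel = tu ∨ sel = tv) (X : ℕ → Bool)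
    (hX : ∀ k, ∃ d, k + 3 ≤ d ∧ ∃ n, Out sel n (P d) (tM (P d n)) (nd X (tM (P d n)))) :
    ∃ R : ℕ × List Bool × ℕ × ℕ → Bool, Computable R ∧
          (∀ k : ℕ, ∀ S : Finset (List Bool),
            (∀ σ ∈ S, ∃ a : ℕ, ∀ b : ℕ, R (k, σ, a, b) = true) →
            ∑ σ ∈ S, ((1:ℝ)/2) ^ σ.length ≤ ((1:ℝ)/2) ^ k) ∧
          ∀ k : ℕ, ∃ n : ℕ, ∃ a : ℕ, ∀ b : ℕ,
            R (k, List.ofFn (fun i : Fin n => X i), a, b) = true := by
  classical
  obtain ⟨inst, hprim⟩ := pp_test hApp hsp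
  refine ⟨fun z => @decide _ (inst z), hprim.to_comp, ?_, ?_⟩
  · intro k S hS
    have h1 : ∀ σ ∈ S, ∃ d, k + 3 ≤ d ∧ ∃ n, Out sel n (P d) σ.length (node σ) := by
      intro σ hσ
      obtain ⟨a, ha⟩ := hS σ hσ
      have ha' : ∀ b, TestP Ap sel k σ (dec a) b := fun b => by
        have := ha b
        simpa using this
      refine ⟨(dec a).1, (ha' 0).1.1, (dec a).2.2.1, ?_⟩
      exact test_sound ha' (hP _)
    choose! D hD using h1
    set T := Finset.Ico (k + 3) (k + 3 + (S.sup D + 1)) with hT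
    have hmaps : ∀ σ ∈ S, D σ ∈ T := by
      intro σ hσ
      have h2 : D σ ≤ S.sup D := Finset.le_sup hσ
      have h3 := (hD σ hσ).1
      rw [hT, Finset.mem_Ico]
      omega
    have h4 : ∑ σ ∈ S, ((1:ℝ)/2) ^ σ.length
        = ∑ d ∈ T, ∑ σ ∈ S with D σ = d, ((1:ℝ)/2) ^ σ.length :=
      (Finset.sum_fiberwise_of_maps_to hmaps _).symm
    rw [h4]
    have h5 : ∑ d ∈ T, ∑ σ ∈ S with D σ = d, ((1:ℝ)/2) ^ σ.length ≤ ∑ d ∈ T, 3 / 2 ^ d := by
      refine Finset.sum_le_sum fun d _ => ?_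
      refine out_bound' (hP d) sel hs _ ?_
      intro σ hσ
      obtain ⟨hσ1, hσ2⟩ := Finset.mem_filter.1 hσ
      obtain ⟨-, h6⟩ := hD σ hσ1
      rwa [hσ2] at h6
    refine h5.trans ?_
    rw [hT, sum_tail]
    have h7 : (0:ℝ) ≤ 6 / 2 ^ (k + 3 + (S.sup D + 1)) := by positivity
    have h8 : (6:ℝ) / 2 ^ (k + 3) ≤ (1/2) ^ k := by
      rw [pow_add, div_le_iff₀ (by positivity), ← mul_assoc, ← mul_pow]
      norm_num
    linarith
  · intro k
    obtain ⟨d, hk, n, ho⟩ := hX k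
    have hlen : (List.ofFn (fun i : Fin (tM (P d n)) => X i)).length = tM (P d n) :=
      List.length_ofFn
    obtain ⟨q, hq⟩ := test_complete hAp (σ := List.ofFn (fun i : Fin (tM (P d n)) => X i)) hk
      (hP d) (n := n) (sel := sel) (by rw [hlen]; exact ho)
    refine ⟨tM (P d n), Encodable.encode q, fun b => ?_⟩
    have := hq b
    simp only [decide_eq_true_eq, dec_encode]
    exact this

end Pool.Agent.Run7.h57.TR
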